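import Pool.Agent.R218.Adj.HopfCole

namespace Pool.Agent.R218.Adj

open MeasureTheory Set Filter Topology

/-- conservation of the pairing of a solution `q` of `q_t + b q_x = ε q_xx` with a solution `σ`
of the adjoint equation -/
lemma pairing_const {ε T : ℝ} {q qx qxx qt σ σx σxx σt b bσ' : ℝ → ℝ → ℝ}
    (dqx : ∀ t, 0 < t → ∀ x, HasDerivAt (fun y => q y t) (qx x t) x)
    (dqxx : ∀ t, 0 < t → ∀ x, HasDerivAt (fun y => qx y t) (qxx x t) x)
    (dqt : ∀ t, 0 < t → ∀ x, HasDerivAt (fun s => q x s) (qt x t) t)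
    (cq : ContinuousOn (fun p : ℝ × ℝ => q p.1 p.2) {p | 0 < p.2})
    (cqt : ContinuousOn (fun p : ℝ × ℝ => qt p.1 p.2) {p | 0 < p.2})
    (pq : ∀ t, 0 < t → ∀ x, q (x + 1) t = q x t)
    (eq : ∀ t, 0 < t → ∀ x, qt x t + b x t * qx x t = ε * qxx x t)
    (dσx : ∀ t, 0 < t → t < T → ∀ x, HasDerivAt (fun y => σ y t) (σx x t) x)
    (dσxx : ∀ t, 0 < t → t < T → ∀ x, HasDerivAt (fun y => σx y t) (σxx x t) x)
    (dσt : ∀ t, 0 < t → t < T → ∀ x, HasDerivAt (fun s => σ x s) (σt x t) t)
    (cσt : ContinuousOn (fun p : ℝ × ℝ => σt p.1 p.2) {p | 0 < p.2 ∧ p.2 < T})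
    (cσ : ContinuousOn (fun p : ℝ × ℝ => σ p.1 p.2) {p | 0 < p.2 ∧ p.2 < T})
    (pσ : ∀ t, 0 < t → t < T → ∀ x, σ (x + 1) t = σ x t)
    (pb : ∀ t, 0 < t → ∀ x, b (x + 1) t = b x t)
    (dbσ : ∀ t, 0 < t → t < T → ∀ x, HasDerivAt (fun y => b y t * σ y t) (bσ' x t) x)
    (eσ : ∀ t, 0 < t → t < T → ∀ x, - σt x t - bσ' x t = ε * σxx x t)
    {t : ℝ} (ht0 : 0 < t) (htT : t < T) :
    HasDerivAt (fun s => ∫ x in (0:ℝ)..1, q x s * σ x s) 0 t := by
  set a := t / 2 with ha
  set c := (t + T) / 2 with hc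
  have ha0 : 0 < a := by positivity
  have hat : a < t := by rw [ha]; linarith
  have htc : t < c := by rw [hc]; linarith
  have hcT : c < T := by rw [hc]; linarith
  have hcomp : IsCompact ((Icc (0:ℝ) 1) ×ˢ Icc a c) := isCompact_Icc.prod isCompact_Icc
  have hsub : (Icc (0:ℝ) 1) ×ˢ Icc a c ⊆ {p : ℝ × ℝ | 0 < p.2 ∧ p.2 < T} := by
    rintro ⟨x, s⟩ ⟨-, hs⟩
    exact ⟨lt_of_lt_of_le ha0 hs.1, lt_of_le_of_lt hs.2 hcT⟩
  have hsub' : {p : ℝ × ℝ | 0 < p.2 ∧ p.2 < T} ⊆ {p : ℝ × ℝ | 0 < p.2} := fun p hp => hp.1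
  have cF' : ContinuousOn (fun p : ℝ × ℝ => qt p.1 p.2 * σ p.1 p.2 + q p.1 p.2 * σt p.1 p.2)
      {p | 0 < p.2 ∧ p.2 < T} :=
    ((cqt.mono hsub').mul cσ).add ((cq.mono hsub').mul cσt)
  obtain ⟨M, hM⟩ := hcomp.exists_bound_of_continuousOn (cF'.mono hsub)
  have slice : ∀ {f : ℝ → ℝ → ℝ} {s : ℝ}, 0 < s → s < T →
      ContinuousOn (fun p : ℝ × ℝ => f p.1 p.2) {p | 0 < p.2 ∧ p.2 < T} →
      Continuous (fun x => f x s) := by
    intro f s h0 h1 hf
    have : Continuous (fun x : ℝ => (x, s)) := by fun_prop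
    exact hf.comp_continuous this (fun x => ⟨h0, h1⟩)
  have key := intervalIntegral.hasDerivAt_integral_of_dominated_loc_of_deriv_le (μ := volume)
    (a := 0) (b := 1) (F := fun s x => q x s * σ x s)
    (F' := fun s x => qt x s * σ x s + q x s * σt x s) (x₀ := t) (s := Ioo a c)
    (bound := fun _ => M) (Ioo_mem_nhds hat htc)
    (by
      filter_upwards [Ioo_mem_nhds hat htc] with r hr
      exact ((slice (ha0.trans hr.1) (hr.2.trans hcT) (cq.mono hsub')).mul
        (slice (ha0.trans hr.1) (hr.2.trans hcT) cσ)).aestronglyMeasurable)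
    (((slice ht0 htT (cq.mono hsub')).mul (slice ht0 htT cσ)).intervalIntegrable _ _)
    (slice (f := fun x s => qt x s * σ x s + q x s * σt x s) ht0 htT cF').aestronglyMeasurable
    (Eventually.of_forall fun x hx s hs => by
      rw [uIoc_of_le zero_le_one] at hx
      exact hM (x, s) ⟨⟨hx.1.le, hx.2⟩, ⟨hs.1.le, hs.2.le⟩⟩)
    (by simp)
    (Eventually.of_forall fun x hx s hs => by
      exact (dqt s (ha0.trans hs.1) x).mul (dσt s (ha0.trans hs.1) (hs.2.trans hcT) x))
  refine key.2.congr_deriv ?_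
  -- the integrand is an exact derivative
  have hR : ∀ x, HasDerivAt (fun y => ε * (qx y t * σ y t - q y t * σx y t)
      - q y t * (b y t * σ y t)) (qt x t * σ x t + q x t * σt x t) x := by
    intro x
    have h1 := ((((dqxx t ht0 x).mul (dσx t ht0 htT x)).sub
      ((dqx t ht0 x).mul (dσxx t ht0 htT x))).const_mul ε).sub
      ((dqx t ht0 x).mul (dbσ t ht0 htT x))
    refine h1.congr_deriv ?_
    have e1 := eq t ht0 x
    have e2 := eσ t ht0 htT x
    have e3 : qt x t = ε * qxx x t - b x t * qx x t := by linarith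
    have e4 : σt x t = - bσ' x t - ε * σxx x t := by linarith
    rw [e3, e4]
    ring
  rw [intervalIntegral.integral_eq_sub_of_hasDerivAt (fun x _ => hR x)
    ((slice (f := fun x s => qt x s * σ x s + q x s * σt x s) ht0 htT cF').intervalIntegrable _ _)]
  have p1 : qx 1 t = qx 0 t := by
    have := per_of_deriv (dqx t ht0) (pq t ht0) 0
    rwa [zero_add] at this
  have p2 : σx 1 t = σx 0 t := by
    have := per_of_deriv (dσx t ht0 htT) (pσ t ht0 htT) 0
    rwa [zero_add] at this
  have p3 : q 1 t = q 0 t := by simpa using pq t ht0 0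
  have p4 : σ 1 t = σ 0 t := by simpa using pσ t ht0 htT 0
  have p5 : b 1 t = b 0 t := by simpa using pb t ht0 0
  rw [p1, p2, p3, p4, p5]
  ring

/-- The adjoint identity: `∫ u_x(x,t) σ(x,t) dx = u_x(z,T)` for `0 < t < T`. -/
theorem adjoint_identity {g : ℝ → ℝ} {ε z T : ℝ} {u σ : ℝ → ℝ → ℝ} (hε : 0 < ε) (hT : 0 < T)
    (hu : ViscousSol quadH g ε u) (hσ : AdjointSol quadH ε z T u σ) {t : ℝ} (ht0 : 0 < t)
    (htT : t < T) : ∫ x in (0:ℝ)..1, Dx u x t * σ x t = Dx u z T := by
  obtain ⟨wx, wxx, wt, hw, hwx⟩ := heatSol_of_viscousSol hε hu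
  obtain ⟨ux, uxx, ut, hux, huxx, hut, cux, cuxx, cut, -⟩ := hu.sol
  obtain ⟨σx, σxx, σt, dσx, dσxx, dσt, cσx, cσxx, cσt, eσ⟩ := hσ.sol
  have hDx : ∀ t, 0 < t → ∀ x, Dx u x t = ux x t := fun t ht x => (hux t ht x).deriv
  set w := hc ε u with hwdef
  have wpos : ∀ x t, 0 < w x t := fun x t => hc_pos x t
  have cw : ContinuousOn (fun p : ℝ × ℝ => w p.1 p.2) {p | 0 < p.2} :=
    hw.cont.mono (fun q (hq : 0 < q.2) => (le_of_lt hq : 0 ≤ q.2))
  -- joint continuity of `σ`
  have opT : IsOpen {p : ℝ × ℝ | 0 < p.2 ∧ p.2 < T} :=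
    (isOpen_lt continuous_const continuous_snd).inter (isOpen_lt continuous_snd continuous_const)
  have cσ : ContinuousOn (fun p : ℝ × ℝ => σ p.1 p.2) {p | 0 < p.2 ∧ p.2 < T} := by
    intro p hp
    have hn := opT.mem_nhds hp
    have key := hasStrictFDerivAt_uncurry_coprod (𝕜 := ℝ) (u := p) (f := σ)
      (f₁ := fun x t => (ContinuousLinearMap.toSpanSingleton ℝ (σx x t)))
      (f₂ := fun x t => (ContinuousLinearMap.toSpanSingleton ℝ (σt x t)))
      (by
        filter_upwards [hn] with v hv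
        exact (dσx v.2 hv.1 hv.2 v.1).hasFDerivAt)
      (by
        filter_upwards [hn] with v hv
        exact (dσt v.2 hv.1 hv.2 v.1).hasFDerivAt)
      (by
        have h1 := cσx.continuousAt hn
        exact ((ContinuousLinearMap.toSpanSingletonCLE (𝕜 := ℝ) (E := ℝ)).continuous.continuousAt.comp
          h1 : _))
      (by
        have h1 := cσt.continuousAt hn
        exact ((ContinuousLinearMap.toSpanSingletonCLE (𝕜 := ℝ) (E := ℝ)).continuous.continuousAt.comp
          h1 : _))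
    exact key.hasFDerivAt.continuousAt.continuousWithinAt
  have sliceσ : ∀ {s : ℝ}, 0 < s → s < T → Continuous (fun x => σ x s) := by
    intro s h0 h1
    have : Continuous (fun x : ℝ => (x, s)) := by fun_prop
    exact cσ.comp_continuous this (fun x => ⟨h0, h1⟩)
  -- the drift
  have dbσ : ∀ t, 0 < t → t < T → ∀ x, HasDerivAt (fun y => Dx u y t * σ y t)
      (deriv (fun y => deriv (quadH y) (Dx u y t) * σ y t) x) x := by
    intro t h0 h1 x
    simp only [deriv_quadH]
    have e : (fun y => Dx u y t * σ y t) = fun y => ux y t * σ y t := by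
      funext y
      rw [hDx t h0]
    rw [e]
    exact ((huxx t h0 x).mul (dσx t h0 h1 x)).differentiableAt.hasDerivAt
  have pb : ∀ t, 0 < t → ∀ x, Dx u (x + 1) t = Dx u x t := by
    intro t h0 x
    rw [hDx t h0, hDx t h0]
    exact per_of_deriv (hux t h0) (hu.per t h0.le) x
  have hb : ∀ t, 0 < t → ∀ x, Dx u x t = - (2 * ε) * wx x t / w x t := by
    intro t h0 x
    rw [hwx t h0 x]
    have := (wpos x t).ne'
    field_simp
  -- the pairing with `q_h`
  have hq : ∀ h s, 0 < s → s < T →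
      ∫ x in (0:ℝ)..1, w (x + h) s / w x s * σ x s = w (z + h) T / w z T := by
    intro h
    set q : ℝ → ℝ → ℝ := fun x t => w (x + h) t / w x t with hqdef
    set qx : ℝ → ℝ → ℝ := fun x t => wx (x + h) t / w x t - w (x + h) t * wx x t / w x t ^ 2
    set qxx : ℝ → ℝ → ℝ := fun x t => wxx (x + h) t / w x t
      - 2 * wx (x + h) t * wx x t / w x t ^ 2 - w (x + h) t * wxx x t / w x t ^ 2
      + 2 * w (x + h) t * wx x t ^ 2 / w x t ^ 3
    set qt : ℝ → ℝ → ℝ := fun x t => wt (x + h) t / w x t - w (x + h) t * wt x t / w x t ^ 2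
    have shift : ∀ {f : ℝ → ℝ → ℝ}, ContinuousOn (fun p : ℝ × ℝ => f p.1 p.2) {p | 0 < p.2} →
        ContinuousOn (fun p : ℝ × ℝ => f (p.1 + h) p.2) {p | 0 < p.2} := by
      intro f hf
      have h1 : ContinuousOn (fun p : ℝ × ℝ => (p.1 + h, p.2)) {p | 0 < p.2} := by fun_prop
      exact hf.comp h1 (fun p hp => hp)
    have c1 := shift cw
    have c2 := shift hw.cx
    have c3 := shift hw.ct
    have cx0 := hw.cx
    have ct0 := hw.ct
    have ne : ∀ p : ℝ × ℝ, p ∈ {p : ℝ × ℝ | 0 < p.2} → w p.1 p.2 ≠ 0 := fun p _ => (wpos _ _).ne'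
    have ne2 : ∀ p : ℝ × ℝ, p ∈ {p : ℝ × ℝ | 0 < p.2} → w p.1 p.2 ^ 2 ≠ 0 :=
      fun p _ => pow_ne_zero _ (wpos _ _).ne'
    have cq : ContinuousOn (fun p : ℝ × ℝ => q p.1 p.2) {p | 0 < p.2} := c1.div cw ne
    have cqx : ContinuousOn (fun p : ℝ × ℝ => qx p.1 p.2) {p | 0 < p.2} :=
      (c2.div cw ne).sub ((c1.mul cx0).div (cw.pow 2) ne2)
    have cqt : ContinuousOn (fun p : ℝ × ℝ => qt p.1 p.2) {p | 0 < p.2} :=
      (c3.div cw ne).sub ((c1.mul ct0).div (cw.pow 2) ne2)
    have dqx : ∀ t, 0 < t → ∀ x, HasDerivAt (fun y => q y t) (qx x t) x := by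
      intro t h0 x
      have h1 := (hw.dx t h0 (x + h)).comp_add_const x h
      have h2 := h1.div (hw.dx t h0 x) (wpos x t).ne'
      refine h2.congr_deriv ?_
      have := (wpos x t).ne'
      simp only [qx]
      field_simp
    have dqxx : ∀ t, 0 < t → ∀ x, HasDerivAt (fun y => qx y t) (qxx x t) x := by
      intro t h0 x
      have h1 := (hw.dx t h0 (x + h)).comp_add_const x h
      have h1x := (hw.dxx t h0 (x + h)).comp_add_const x h
      have h2 := (h1x.div (hw.dx t h0 x) (wpos x t).ne').sub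
        ((h1.mul (hw.dxx t h0 x)).div ((hw.dx t h0 x).pow 2) (pow_ne_zero 2 (wpos x t).ne'))
      refine h2.congr_deriv ?_
      have := (wpos x t).ne'
      simp only [qxx, Pi.mul_apply, Pi.pow_apply]
      push_cast
      field_simp
      ring
    have dqt : ∀ t, 0 < t → ∀ x, HasDerivAt (fun s => q x s) (qt x t) t := by
      intro t h0 x
      have h2 := (hw.dt t h0 (x + h)).div (hw.dt t h0 x) (wpos x t).ne'
      refine h2.congr_deriv ?_
      have := (wpos x t).ne'
      simp only [qt]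
      field_simp
    have pq : ∀ t, 0 < t → ∀ x, q (x + 1) t = q x t := by
      intro t h0 x
      simp only [q]
      rw [hw.per t h0.le x, show x + 1 + h = (x + h) + 1 by ring, hw.per t h0.le (x + h)]
    have eq : ∀ t, 0 < t → ∀ x, qt x t + Dx u x t * qx x t = ε * qxx x t := by
      intro t h0 x
      have := (wpos x t).ne'
      rw [hb t h0 x]
      simp only [qt, qx, qxx]
      rw [hw.pde t h0 x, hw.pde t h0 (x + h)]
      field_simp
      ring
    have hder : ∀ s, 0 < s → s < T → HasDerivAt (fun s => ∫ x in (0:ℝ)..1, q x s * σ x s) 0 s :=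
      fun s h0 h1 => pairing_const dqx dqxx dqt cq cqt pq eq dσx dσxx dσt cσt cσ
        hσ.per pb dbσ eσ h0 h1
    have hconst : ∀ s r, 0 < s → s < r → r < T →
        ∫ x in (0:ℝ)..1, q x s * σ x s = ∫ x in (0:ℝ)..1, q x r * σ x r := by
      intro s r hs hsr hr
      obtain ⟨ξ, hξ, hξ2⟩ := exists_hasDerivAt_eq_slope
        (fun s => ∫ x in (0:ℝ)..1, q x s * σ x s) (fun _ => 0) hsr
        (fun y hy => (hder y (lt_of_lt_of_le hs hy.1)
          (lt_of_le_of_lt hy.2 hr)).continuousAt.continuousWithinAt)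
        (fun y hy => hder y (hs.trans hy.1) (hy.2.trans hr))
      have h3 := hξ2.symm
      rw [div_eq_zero_iff] at h3
      rcases h3 with h' | h'
      · linarith
      · linarith
    -- the limit at `T`
    have qTc : Continuous (fun x => q x T) := by
      have : Continuous (fun x : ℝ => (x, T)) := by fun_prop
      exact cq.comp_continuous this (fun x => hT)
    have hlim1 : Tendsto (fun s => ∫ x in (0:ℝ)..1, q x T * σ x s) (𝓝[<] T) (𝓝 (q z T)) :=
      hσ.terminal (fun x => q x T) qTc (pq T hT)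
    have hlim2 : Tendsto (fun s => ∫ x in (0:ℝ)..1, q x s * σ x s) (𝓝[<] T) (𝓝 (q z T)) := by
      rw [Metric.tendsto_nhdsWithin_nhds] at hlim1 ⊢
      intro δ hδ
      obtain ⟨δ1, hδ1, h1⟩ := hlim1 (δ / 2) (by positivity)
      have hcomp : IsCompact ((Icc (0:ℝ) 1) ×ˢ Icc (T / 2) T) := isCompact_Icc.prod isCompact_Icc
      have huc := hcomp.uniformContinuousOn_of_continuous (cq.mono (by
        rintro ⟨x, s⟩ ⟨-, hs⟩
        exact lt_of_lt_of_le (by positivity : 0 < T / 2) hs.1))
      rw [Metric.uniformContinuousOn_iff] at huc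
      obtain ⟨δ2, hδ2, h2⟩ := huc (δ / 4) (by positivity)
      refine ⟨min δ1 (min δ2 (T / 2)), by positivity, fun {s} hs hsd => ?_⟩
      have hsT : s < T := hs
      have hd1 : dist s T < δ1 := lt_of_lt_of_le hsd (min_le_left _ _)
      have hd2 : dist s T < δ2 := lt_of_lt_of_le hsd ((min_le_right _ _).trans (min_le_left _ _))
      have hd3 : dist s T < T / 2 := lt_of_lt_of_le hsd ((min_le_right _ _).trans (min_le_right _ _))
      have hs0 : T / 2 < s := by
        rw [Real.dist_eq, abs_lt] at hd3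
        linarith [hd3.1]
      have hs00 : 0 < s := lt_trans (by positivity) hs0
      have h3 := h1 hs hd1
      have cqs : Continuous (fun x => q x s) := by
        have : Continuous (fun x : ℝ => (x, s)) := by fun_prop
        exact cq.comp_continuous this (fun x => hs00)
      have h4 : |(∫ x in (0:ℝ)..1, q x s * σ x s) - ∫ x in (0:ℝ)..1, q x T * σ x s| ≤ δ / 4 := by
        have ii1 : IntervalIntegrable (fun x => q x s * σ x s) volume 0 1 :=
          (cqs.mul (sliceσ hs00 hsT)).intervalIntegrable _ _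
        have ii2 : IntervalIntegrable (fun x => q x T * σ x s) volume 0 1 :=
          (qTc.mul (sliceσ hs00 hsT)).intervalIntegrable _ _
        rw [← intervalIntegral.integral_sub ii1 ii2]
        calc |∫ x in (0:ℝ)..1, (q x s * σ x s - q x T * σ x s)|
            ≤ ∫ x in (0:ℝ)..1, |q x s * σ x s - q x T * σ x s| :=
              intervalIntegral.abs_integral_le_integral_abs zero_le_one
          _ ≤ ∫ x in (0:ℝ)..1, δ / 4 * σ x s := by
              apply intervalIntegral.integral_mono_on zero_le_one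
              · exact (((cqs.mul (sliceσ hs00 hsT)).sub
                  (qTc.mul (sliceσ hs00 hsT))).abs).intervalIntegrable _ _
              · exact ((continuous_const.mul (sliceσ hs00 hsT))).intervalIntegrable _ _
              · intro x hx
                have h5 := h2 (x, s) ⟨hx, ⟨hs0.le, hsT.le⟩⟩ (x, T)
                  ⟨hx, ⟨by linarith, le_rfl⟩⟩ (by
                    rw [Prod.dist_eq]
                    simpa using hd2)
                rw [← sub_mul, abs_mul, abs_of_nonneg (hσ.nonneg s hs00 hsT x)]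
                apply mul_le_mul_of_nonneg_right _ (hσ.nonneg s hs00 hsT x)
                rw [Real.dist_eq] at h5
                exact h5.le
          _ = δ / 4 := by
              rw [intervalIntegral.integral_const_mul, hσ.mass s hs00 hsT, mul_one]
      rw [Real.dist_eq] at h3 ⊢
      calc |(∫ x in (0:ℝ)..1, q x s * σ x s) - q z T|
          = |((∫ x in (0:ℝ)..1, q x s * σ x s) - ∫ x in (0:ℝ)..1, q x T * σ x s) +
            ((∫ x in (0:ℝ)..1, q x T * σ x s) - q z T)| := by ring_nf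
        _ ≤ _ := abs_add_le _ _
        _ < δ := by linarith
    intro s hs0 hsT
    have hev : ∀ᶠ r in 𝓝[<] T, (∫ x in (0:ℝ)..1, q x r * σ x r) =
        ∫ x in (0:ℝ)..1, q x s * σ x s := by
      have : Ioo s T ∈ 𝓝[<] T := Ioo_mem_nhdsLT hsT
      filter_upwards [this] with r hr
      exact (hconst s r hs0 hr.1 hr.2).symm
    have hlim3 : Tendsto (fun r => ∫ x in (0:ℝ)..1, q x r * σ x r) (𝓝[<] T)
        (𝓝 (∫ x in (0:ℝ)..1, q x s * σ x s)) :=
      tendsto_const_nhds.congr' (hev.mono fun r hr => hr.symm)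
    exact tendsto_nhds_unique hlim3 hlim2
  -- differentiate in `h`
  have sw : Continuous (fun x => w x t) := hw.slice_cont ht0.le
  have swx : Continuous (fun x => wx x t) := hw.slice_cont_x ht0
  obtain ⟨M, hM0, hM⟩ := bdd_of_per (f := wx) (a := t) (b := t)
    (hw.cx.mono (by rintro ⟨x, s⟩ ⟨-, hs⟩; exact lt_of_lt_of_le ht0 hs.1))
    (by intro s hs x; exact hw.per_x (lt_of_lt_of_le ht0 hs.1) x)
  have htt : t ∈ Icc t t := ⟨le_rfl, le_rfl⟩
  have cinv : Continuous (fun x => σ x t / w x t) :=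
    (sliceσ ht0 htT).div sw (fun x => (wpos x t).ne')
  have hcontF : ∀ h, Continuous (fun x => w (x + h) t / w x t * σ x t) := fun h =>
    ((sw.comp (continuous_id.add continuous_const)).div sw (fun x => (wpos x t).ne')).mul
      (sliceσ ht0 htT)
  have hcontF' : ∀ h, Continuous (fun x => wx (x + h) t / w x t * σ x t) := fun h =>
    ((swx.comp (continuous_id.add continuous_const)).div sw (fun x => (wpos x t).ne')).mul
      (sliceσ ht0 htT)
  have key2 := intervalIntegral.hasDerivAt_integral_of_dominated_loc_of_deriv_le (μ := volume)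
    (a := 0) (b := 1) (F := fun h x => w (x + h) t / w x t * σ x t)
    (F' := fun h x => wx (x + h) t / w x t * σ x t) (x₀ := (0:ℝ)) (s := univ)
    (bound := fun x => M * |σ x t / w x t|) univ_mem
    (Eventually.of_forall fun h => (hcontF h).aestronglyMeasurable)
    ((hcontF 0).intervalIntegrable _ _)
    (hcontF' 0).aestronglyMeasurable
    (Eventually.of_forall fun x _ h _ => by
      have e : wx (x + h) t / w x t * σ x t = wx (x + h) t * (σ x t / w x t) := by ring
      rw [e, Real.norm_eq_abs, abs_mul]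
      exact mul_le_mul_of_nonneg_right (hM t htt _) (abs_nonneg _))
    ((continuous_const.mul cinv.abs).intervalIntegrable _ _)
    (Eventually.of_forall fun x _ h _ => by
      have h1 : HasDerivAt (fun h => w (x + h) t) (wx (x + h) t) h :=
        (hw.dx t ht0 (x + h)).comp_const_add x h
      exact (h1.div_const _).mul_const _)
  have hR : HasDerivAt (fun h => w (z + h) T / w z T) (wx (z + 0) T / w z T) 0 :=
    ((hw.dx T hT (z + 0)).comp_const_add z 0).div_const _
  have e0 : (fun h => ∫ x in (0:ℝ)..1, w (x + h) t / w x t * σ x t) =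
      fun h => w (z + h) T / w z T := funext fun h => hq h t ht0 htT
  have h5 := key2.2
  rw [e0] at h5
  have h6 := h5.unique hR
  simp only [add_zero] at h6
  rw [hb T hT z]
  have e1 : ∀ x, Dx u x t * σ x t = (- (2 * ε)) * (wx x t / w x t * σ x t) := by
    intro x
    rw [hb t ht0 x]
    ring
  simp only [e1]
  rw [intervalIntegral.integral_const_mul, h6]
  ring

/-- The pairing of the adjoint measure with the momentum coordinate `ψ(x,p,t) = p`. -/
theorem pairing_momentum {g : ℝ → ℝ} {ε z T : ℝ} {u σ : ℝ → ℝ → ℝ} (hε : 0 < ε) (hT : 0 < T)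
    (hu : ViscousSol quadH g ε u) (hσ : AdjointSol quadH ε z T u σ) :
    pairing T u σ (fun q => q.2.1) = T * Dx u z T := by
  unfold pairing
  have h1 : ∫ t in (0:ℝ)..T, (∫ x in (0:ℝ)..1, Dx u x t * σ x t) =
      ∫ t in (0:ℝ)..T, Dx u z T := by
    apply intervalIntegral.integral_congr_ae
    have h2 : ∀ᵐ t : ℝ, t ≠ T := by
      have : volume ({T} : Set ℝ) = 0 := Real.volume_singleton
      exact (measure_eq_zero_iff_ae_notMem.mp this).mono (fun t ht h => ht h)
    filter_upwards [h2] with t ht htm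
    rw [uIoc_of_le hT.le] at htm
    exact adjoint_identity hε hT hu hσ htm.1 (lt_of_le_of_ne htm.2 ht)
  simp only
  rw [h1]
  simp

end Pool.Agent.R218.Adj
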