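import Mathlib

/-!
# Viscous Hamilton-Jacobi equations on the circle and their adjoint measures: definitions

Functions on the circle `ℝ/ℤ` are `1`-periodic functions on `ℝ`; space dimension `n = 1`.
-/

namespace Pool.Agent.R218.Adj

open MeasureTheory Set Filter Topology

/-- Standing hypotheses on the Hamiltonian: `C²`, `1`-periodic in `x`, convex in `p`, and (A1). -/
structure Hamiltonian (H : ℝ → ℝ → ℝ) : Prop where
  smooth : ContDiff ℝ 2 (fun q : ℝ × ℝ => H q.1 q.2)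
  periodic : ∀ x p, H (x + 1) p = H x p
  convex : ∀ x, ConvexOn ℝ univ (H x)
  growth : ∀ M : ℝ, ∃ R : ℝ, ∀ p, R ≤ |p| → ∀ x,
    M ≤ 1 / 2 * (H x p) ^ 2 + deriv (fun y => H y p) x * p

/-- Classical solutions `u` of `u_t + H(x,u_x) = ε u_xx` on the circle for `t > 0`, of class
`C²` in `x` and `C¹` in `t`, continuous up to `t = 0`, with `u(·,0) = g`. -/
structure ViscousSol (H : ℝ → ℝ → ℝ) (g : ℝ → ℝ) (ε : ℝ) (u : ℝ → ℝ → ℝ) : Prop where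
  cont : ContinuousOn (fun q : ℝ × ℝ => u q.1 q.2) {q | 0 ≤ q.2}
  per : ∀ t, 0 ≤ t → ∀ x, u (x + 1) t = u x t
  init : ∀ x, u x 0 = g x
  sol : ∃ ux uxx ut : ℝ → ℝ → ℝ,
    (∀ t, 0 < t → ∀ x, HasDerivAt (fun y => u y t) (ux x t) x) ∧
    (∀ t, 0 < t → ∀ x, HasDerivAt (fun y => ux y t) (uxx x t) x) ∧
    (∀ t, 0 < t → ∀ x, HasDerivAt (fun s => u x s) (ut x t) t) ∧
    ContinuousOn (fun q : ℝ × ℝ => ux q.1 q.2) {q | 0 < q.2} ∧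
    ContinuousOn (fun q : ℝ × ℝ => uxx q.1 q.2) {q | 0 < q.2} ∧
    ContinuousOn (fun q : ℝ × ℝ => ut q.1 q.2) {q | 0 < q.2} ∧
    ∀ t, 0 < t → ∀ x, ut x t + H x (ux x t) = ε * uxx x t

/-- The spatial derivative `u_x(x,t)`. -/
noncomputable def Dx (u : ℝ → ℝ → ℝ) (x t : ℝ) : ℝ := deriv (fun y => u y t) x

/-- Classical solutions `σ ≥ 0` of the adjoint equation
`-σ_t - (D_pH(x,u_x) σ)_x = ε σ_xx` on the circle for `0 < t < T`, of class `C²` in `x` and `C¹`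
in `t`, of mass one at each time, with `σ(·,t) dx → δ_z` weakly as `t ↑ T`. -/
structure AdjointSol (H : ℝ → ℝ → ℝ) (ε z T : ℝ) (u σ : ℝ → ℝ → ℝ) : Prop where
  per : ∀ t, 0 < t → t < T → ∀ x, σ (x + 1) t = σ x t
  nonneg : ∀ t, 0 < t → t < T → ∀ x, 0 ≤ σ x t
  mass : ∀ t, 0 < t → t < T → ∫ x in (0:ℝ)..1, σ x t = 1
  sol : ∃ σx σxx σt : ℝ → ℝ → ℝ,
    (∀ t, 0 < t → t < T → ∀ x, HasDerivAt (fun y => σ y t) (σx x t) x) ∧
    (∀ t, 0 < t → t < T → ∀ x, HasDerivAt (fun y => σx y t) (σxx x t) x) ∧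
    (∀ t, 0 < t → t < T → ∀ x, HasDerivAt (fun s => σ x s) (σt x t) t) ∧
    ContinuousOn (fun q : ℝ × ℝ => σx q.1 q.2) {q | 0 < q.2 ∧ q.2 < T} ∧
    ContinuousOn (fun q : ℝ × ℝ => σxx q.1 q.2) {q | 0 < q.2 ∧ q.2 < T} ∧
    ContinuousOn (fun q : ℝ × ℝ => σt q.1 q.2) {q | 0 < q.2 ∧ q.2 < T} ∧
    ∀ t, 0 < t → t < T → ∀ x,
      - σt x t - deriv (fun y => deriv (H y) (Dx u y t) * σ y t) x = ε * σxx x t
  terminal : ∀ f : ℝ → ℝ, Continuous f → (∀ x, f (x + 1) = f x) →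
    Tendsto (fun t => ∫ x in (0:ℝ)..1, f x * σ x t) (𝓝[<] T) (𝓝 (f z))

/-- The integral `∫ ψ dμ` of a test function `ψ(x,p,t)` against the measure
`∫ ψ dμ = ∫_0^T ∫ ψ(x, u_x(x,t), t) σ(x,t) dx dt`. -/
noncomputable def pairing (T : ℝ) (u σ : ℝ → ℝ → ℝ) (ψ : ℝ × ℝ × ℝ → ℝ) : ℝ :=
  ∫ t in (0:ℝ)..T, ∫ x in (0:ℝ)..1, ψ (x, Dx u x t, t) * σ x t

end Pool.Agent.R218.Adj
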