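import Mathlib

/-!
# Periodic classical solutions of the heat equation: Gaussian representation
-/

namespace Pool.Agent.R218.Adj

open MeasureTheory Set Filter Topology

/-- derivative along a curve of a function with continuous first derivatives in each variable -/
lemma curve_deriv {f fx ft : ℝ → ℝ → ℝ} {O : Set (ℝ × ℝ)} (hO : IsOpen O)
    (hfx : ∀ q ∈ O, HasDerivAt (fun y => f y q.2) (fx q.1 q.2) q.1)
    (hft : ∀ q ∈ O, HasDerivAt (fun s => f q.1 s) (ft q.1 q.2) q.2)
    (cx : ContinuousOn (fun q : ℝ × ℝ => fx q.1 q.2) O)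
    (ct : ContinuousOn (fun q : ℝ × ℝ => ft q.1 q.2) O) {X S : ℝ → ℝ} {X' S' s0 : ℝ}
    (hX : HasDerivAt X X' s0) (hS : HasDerivAt S S' s0) (hq : (X s0, S s0) ∈ O) :
    HasDerivAt (fun s => f (X s) (S s)) (fx (X s0) (S s0) * X' + ft (X s0) (S s0) * S') s0 := by
  have hn : O ∈ 𝓝 (X s0, S s0) := hO.mem_nhds hq
  have key := hasStrictFDerivAt_uncurry_coprod (𝕜 := ℝ) (u := (X s0, S s0)) (f := f)
    (f₁ := fun x t => (ContinuousLinearMap.toSpanSingleton ℝ (fx x t)))
    (f₂ := fun x t => (ContinuousLinearMap.toSpanSingleton ℝ (ft x t)))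
    (by
      filter_upwards [hn] with v hv
      exact (hfx v hv).hasFDerivAt)
    (by
      filter_upwards [hn] with v hv
      exact (hft v hv).hasFDerivAt)
    (by
      have h1 := cx.continuousAt hn
      exact ((ContinuousLinearMap.toSpanSingletonCLE (𝕜 := ℝ) (E := ℝ)).continuous.continuousAt.comp h1 : _))
    (by
      have h1 := ct.continuousAt hn
      exact ((ContinuousLinearMap.toSpanSingletonCLE (𝕜 := ℝ) (E := ℝ)).continuous.continuousAt.comp h1 : _))
  have h2 := key.hasFDerivAt.comp_hasDerivAt s0 (hX.prodMk hS)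
  have e : (((ContinuousLinearMap.toSpanSingleton ℝ (fx (X s0) (S s0))).coprod
      (ContinuousLinearMap.toSpanSingleton ℝ (ft (X s0) (S s0)))) (X', S')) =
      fx (X s0) (S s0) * X' + ft (X s0) (S s0) * S' := by
    simp [mul_comm]
  rw [← e]
  exact h2

/-- a function continuous on `ℝ × [a,b]` and `1`-periodic in `x` is bounded there -/
lemma bdd_of_per {f : ℝ → ℝ → ℝ} {a b : ℝ}
    (hc : ContinuousOn (fun q : ℝ × ℝ => f q.1 q.2) (univ ×ˢ Icc a b))
    (hp : ∀ t ∈ Icc a b, ∀ x, f (x + 1) t = f x t) :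
    ∃ M, 0 ≤ M ∧ ∀ t ∈ Icc a b, ∀ x, |f x t| ≤ M := by
  have hK : IsCompact ((Icc (0:ℝ) 1) ×ˢ Icc a b) := isCompact_Icc.prod isCompact_Icc
  have h1 : ContinuousOn (fun q : ℝ × ℝ => f q.1 q.2) ((Icc (0:ℝ) 1) ×ˢ Icc a b) :=
    hc.mono (prod_mono (subset_univ _) subset_rfl)
  obtain ⟨M, hM⟩ := hK.exists_bound_of_continuousOn h1
  refine ⟨max M 0, le_max_right _ _, fun t ht x => ?_⟩
  have hper : Function.Periodic (fun x => f x t) 1 := fun x => hp t ht x
  have h2 : f x t = f (Int.fract x) t := by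
    have := hper.sub_int_mul_eq ⌊x⌋ (x := x)
    simp only [mul_one] at this
    exact this.symm
  rw [h2]
  have h3 := hM (Int.fract x, t) ⟨⟨Int.fract_nonneg x, (Int.fract_lt_one x).le⟩, ht⟩
  exact le_trans h3 (le_max_left _ _)

/-- Classical `1`-periodic solutions of the heat equation `w_t = ε w_xx` on `t > 0`, continuous up
to `t = 0`, with named derivatives. -/
structure HeatSol (ε : ℝ) (w wx wxx wt : ℝ → ℝ → ℝ) : Prop where
  cont : ContinuousOn (fun q : ℝ × ℝ => w q.1 q.2) {q | 0 ≤ q.2}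
  per : ∀ t, 0 ≤ t → ∀ x, w (x + 1) t = w x t
  dx : ∀ t, 0 < t → ∀ x, HasDerivAt (fun y => w y t) (wx x t) x
  dxx : ∀ t, 0 < t → ∀ x, HasDerivAt (fun y => wx y t) (wxx x t) x
  dt : ∀ t, 0 < t → ∀ x, HasDerivAt (fun s => w x s) (wt x t) t
  cx : ContinuousOn (fun q : ℝ × ℝ => wx q.1 q.2) {q | 0 < q.2}
  cxx : ContinuousOn (fun q : ℝ × ℝ => wxx q.1 q.2) {q | 0 < q.2}
  ct : ContinuousOn (fun q : ℝ × ℝ => wt q.1 q.2) {q | 0 < q.2}
  pde : ∀ t, 0 < t → ∀ x, wt x t = ε * wxx x t

/-- the standard Gaussian weight -/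
noncomputable def G (ζ : ℝ) : ℝ := Real.exp (-(1/2) * ζ ^ 2)

lemma G_pos (ζ : ℝ) : 0 < G ζ := Real.exp_pos _

lemma continuous_G : Continuous G := by unfold G; fun_prop

lemma integrable_G : Integrable G := integrable_exp_neg_mul_sq (by norm_num)

lemma integrable_G_mul : Integrable (fun ζ => |ζ| * G ζ) := by
  have h := integrable_mul_exp_neg_mul_sq (b := 1/2) (by norm_num)
  have h2 := h.norm
  refine h2.congr (Eventually.of_forall fun ζ => ?_)
  simp only [norm_mul, Real.norm_eq_abs, G, Real.abs_exp]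

lemma hasDerivAt_G (ζ : ℝ) : HasDerivAt G (-ζ * G ζ) ζ := by
  have h := ((hasDerivAt_pow 2 ζ).const_mul (-(1/2) : ℝ)).exp
  refine h.congr_deriv ?_
  unfold G
  push_cast
  ring

lemma open_pos : IsOpen {q : ℝ × ℝ | 0 < q.2} := isOpen_lt continuous_const continuous_snd

lemma per_of_deriv {f f' : ℝ → ℝ} (h : ∀ x, HasDerivAt f (f' x) x) (hp : ∀ x, f (x + 1) = f x)
    (x : ℝ) : f' (x + 1) = f' x := by
  have h1 : HasDerivAt (fun y => f (y + 1)) (f' (x + 1)) x := by
    have := (h (x + 1)).comp_add_const x 1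
    exact this
  have h2 : (fun y => f (y + 1)) = f := funext hp
  rw [h2] at h1
  exact h1.unique (h x)

lemma hasDerivAt_scale {ε T s : ℝ} (hε : 0 < ε) (hs : s < T) :
    HasDerivAt (fun s => Real.sqrt (2 * ε * (T - s))) (-ε / Real.sqrt (2 * ε * (T - s))) s := by
  have h1 : HasDerivAt (fun s => 2 * ε * (T - s)) (-(2 * ε)) s := by
    have := ((hasDerivAt_id s).const_sub T).const_mul (2 * ε)
    simpa using this
  have h2 : 0 < 2 * ε * (T - s) := by
    have : 0 < T - s := by linarith
    positivity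
  have h3 := h1.sqrt h2.ne'
  refine h3.congr_deriv ?_
  have : Real.sqrt (2 * ε * (T - s)) ≠ 0 := (Real.sqrt_pos.mpr h2).ne'
  field_simp

namespace HeatSol

variable {ε : ℝ} {w wx wxx wt : ℝ → ℝ → ℝ} (h : HeatSol ε w wx wxx wt)

include h

lemma per_x {t : ℝ} (ht : 0 < t) (x : ℝ) : wx (x + 1) t = wx x t :=
  per_of_deriv (h.dx t ht) (h.per t ht.le) x

lemma per_xx {t : ℝ} (ht : 0 < t) (x : ℝ) : wxx (x + 1) t = wxx x t :=
  per_of_deriv (h.dxx t ht) (fun x => h.per_x ht x) x

lemma per_t {t : ℝ} (ht : 0 < t) (x : ℝ) : wt (x + 1) t = wt x t := by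
  rw [h.pde t ht, h.pde t ht, h.per_xx ht]

lemma slice_cont {t : ℝ} (ht : 0 ≤ t) : Continuous (fun x => w x t) := by
  have : Continuous (fun x : ℝ => (x, t)) := by fun_prop
  exact h.cont.comp_continuous this (fun x => ht)

lemma slice_cont_x {t : ℝ} (ht : 0 < t) : Continuous (fun x => wx x t) := by
  have : Continuous (fun x : ℝ => (x, t)) := by fun_prop
  exact h.cx.comp_continuous this (fun x => ht)

lemma slice_cont_xx {t : ℝ} (ht : 0 < t) : Continuous (fun x => wxx x t) := by
  have : Continuous (fun x : ℝ => (x, t)) := by fun_prop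
  exact h.cxx.comp_continuous this (fun x => ht)

lemma slice_cont_t {t : ℝ} (ht : 0 < t) : Continuous (fun x => wt x t) := by
  have : Continuous (fun x : ℝ => (x, t)) := by fun_prop
  exact h.ct.comp_continuous this (fun x => ht)

/-- integration by parts against the Gaussian -/
lemma ibp {t c z : ℝ} (ht : 0 < t) :
    ∫ ζ, G ζ * (ζ * wx (z + c * ζ) t) = ∫ ζ, G ζ * (c * wxx (z + c * ζ) t) := by
  obtain ⟨M, hM0, hM⟩ := bdd_of_per (f := wx) (a := t) (b := t)
    (h.cx.mono (by rintro ⟨x, s⟩ ⟨-, hs⟩; exact lt_of_lt_of_le ht hs.1))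
    (by intro s hs x; exact h.per_x (lt_of_lt_of_le ht hs.1) x)
  obtain ⟨N, hN0, hN⟩ := bdd_of_per (f := wxx) (a := t) (b := t)
    (h.cxx.mono (by rintro ⟨x, s⟩ ⟨-, hs⟩; exact lt_of_lt_of_le ht hs.1))
    (by intro s hs x; exact h.per_xx (lt_of_lt_of_le ht hs.1) x)
  have htt : t ∈ Icc t t := ⟨le_rfl, le_rfl⟩
  have c1 : Continuous (fun ζ => wx (z + c * ζ) t) := (h.slice_cont_x ht).comp (by fun_prop)
  have c2 : Continuous (fun ζ => wxx (z + c * ζ) t) := (h.slice_cont_xx ht).comp (by fun_prop)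
  have i1 : Integrable (fun ζ => (fun ζ => wx (z + c * ζ) t) ζ * (-ζ * G ζ)) := by
    refine (integrable_G_mul.const_mul M).mono' (by
      exact (c1.mul ((continuous_id.neg).mul continuous_G)).aestronglyMeasurable)
      (Eventually.of_forall fun ζ => ?_)
    rw [Real.norm_eq_abs, abs_mul, abs_mul, abs_neg, abs_of_pos (G_pos ζ)]
    exact mul_le_mul_of_nonneg_right (hM t htt _) (by positivity [G_pos ζ])
  have i2 : Integrable (fun ζ => (fun ζ => wxx (z + c * ζ) t * c) ζ * G ζ) := by
    refine (integrable_G.const_mul (N * |c|)).mono' (by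
      exact ((c2.mul_const c).mul continuous_G).aestronglyMeasurable)
      (Eventually.of_forall fun ζ => ?_)
    rw [Real.norm_eq_abs, abs_mul, abs_mul, abs_of_pos (G_pos ζ)]
    exact mul_le_mul_of_nonneg_right (mul_le_mul_of_nonneg_right (hN t htt _) (abs_nonneg _))
      (G_pos ζ).le
  have i3 : Integrable (fun ζ => (fun ζ => wx (z + c * ζ) t) ζ * G ζ) := by
    refine (integrable_G.const_mul M).mono' (by
      exact (c1.mul continuous_G).aestronglyMeasurable)
      (Eventually.of_forall fun ζ => ?_)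
    rw [Real.norm_eq_abs, abs_mul, abs_of_pos (G_pos ζ)]
    exact mul_le_mul_of_nonneg_right (hM t htt _) (G_pos ζ).le
  have key := integral_mul_deriv_eq_deriv_mul_of_integrable
    (u := fun ζ => wx (z + c * ζ) t) (u' := fun ζ => wxx (z + c * ζ) t * c) (v := G)
    (v' := fun ζ => -ζ * G ζ)
    (fun ζ _ => by
      have h1 : HasDerivAt (fun ζ : ℝ => z + c * ζ) c ζ := by
        simpa using ((hasDerivAt_id ζ).const_mul c).const_add z
      exact (h.dxx t ht (z + c * ζ)).comp ζ h1) (fun ζ _ => hasDerivAt_G ζ) i1 i2 i3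
  have e1 : ∫ ζ, wx (z + c * ζ) t * (-ζ * G ζ) = - ∫ ζ, G ζ * (ζ * wx (z + c * ζ) t) := by
    rw [← integral_neg]
    congr 1
    funext ζ
    ring
  have e2 : ∫ ζ, wxx (z + c * ζ) t * c * G ζ = ∫ ζ, G ζ * (c * wxx (z + c * ζ) t) := by
    congr 1
    funext ζ
    ring
  rw [e1, e2] at key
  linarith

/-- Gaussian representation of a periodic classical solution of the heat equation. -/
theorem repr (hε : 0 < ε) {T : ℝ} (hT : 0 < T) (z : ℝ) :
    (∫ ζ, G ζ) * w z T = ∫ ζ, G ζ * w (z + Real.sqrt (2 * ε * T) * ζ) 0 := by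
  set c : ℝ → ℝ := fun s => Real.sqrt (2 * ε * (T - s)) with hc
  have hcc : Continuous c := by rw [hc]; fun_prop
  obtain ⟨M, hM0, hM⟩ := bdd_of_per (f := w) (a := 0) (b := T)
    (h.cont.mono (by rintro ⟨x, s⟩ ⟨-, hs⟩; exact hs.1))
    (by intro s hs x; exact h.per s hs.1 x)
  set Φ : ℝ → ℝ := fun s => ∫ ζ, G ζ * w (z + c s * ζ) s with hΦ
  have sc : ∀ s, 0 ≤ s → Continuous (fun ζ => w (z + c s * ζ) s) := fun s hs =>
    (h.slice_cont hs).comp (by fun_prop)
  have hcont : ContinuousOn Φ (Icc 0 T) := by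
    apply continuousOn_of_dominated (bound := fun ζ => M * G ζ)
    · intro s hs
      exact (continuous_G.mul (sc s hs.1)).aestronglyMeasurable
    · intro s hs
      refine Eventually.of_forall fun ζ => ?_
      rw [Real.norm_eq_abs, abs_mul, abs_of_pos (G_pos ζ), mul_comm]
      exact mul_le_mul_of_nonneg_right (hM s hs _) (G_pos ζ).le
    · exact integrable_G.const_mul M
    · refine Eventually.of_forall fun ζ => ?_
      apply ContinuousOn.mul continuousOn_const
      have h1 : ContinuousOn (fun s : ℝ => (z + c s * ζ, s)) (Icc 0 T) := by fun_prop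
      exact h.cont.comp h1 (fun s hs => hs.1)
  have hder : ∀ s ∈ Ioo 0 T, HasDerivAt Φ 0 s := by
    intro s hs
    obtain ⟨hs0, hsT⟩ := hs
    set a := s / 2 with ha
    set b := (s + T) / 2 with hb
    have ha0 : 0 < a := by positivity
    have has : a < s := by rw [ha]; linarith
    have hsb : s < b := by rw [hb]; linarith
    have hbT : b < T := by rw [hb]; linarith
    obtain ⟨M1, hM10, hM1⟩ := bdd_of_per (f := wx) (a := a) (b := b)
      (h.cx.mono (by rintro ⟨x, s⟩ ⟨-, hs⟩; exact lt_of_lt_of_le ha0 hs.1))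
      (by intro s hs x; exact h.per_x (lt_of_lt_of_le ha0 hs.1) x)
    obtain ⟨M2, hM20, hM2⟩ := bdd_of_per (f := wt) (a := a) (b := b)
      (h.ct.mono (by rintro ⟨x, s⟩ ⟨-, hs⟩; exact lt_of_lt_of_le ha0 hs.1))
      (by intro s hs x; exact h.per_t (lt_of_lt_of_le ha0 hs.1) x)
    have hcb : 0 < c b := by
      rw [hc]
      apply Real.sqrt_pos.mpr
      have : 0 < T - b := by linarith
      positivity
    have hcs : 0 < c s := by
      rw [hc]
      apply Real.sqrt_pos.mpr
      have : 0 < T - s := by linarith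
      positivity
    have hF := hasDerivAt_integral_of_dominated_loc_of_deriv_le (μ := volume)
      (F := fun s ζ => G ζ * w (z + c s * ζ) s)
      (F' := fun s ζ => G ζ * (wx (z + c s * ζ) s * (-ε / c s * ζ) + wt (z + c s * ζ) s))
      (x₀ := s) (s := Ioo a b) (bound := fun ζ => (M1 * (ε / c b)) * (|ζ| * G ζ) + M2 * G ζ)
      (Ioo_mem_nhds has hsb)
      (by
        filter_upwards [Ioo_mem_nhds has hsb] with r hr
        exact (continuous_G.mul (sc r (ha0.le.trans hr.1.le))).aestronglyMeasurable)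
      (by
        refine (integrable_G.const_mul M).mono' (continuous_G.mul (sc s hs0.le)).aestronglyMeasurable
          (Eventually.of_forall fun ζ => ?_)
        rw [Real.norm_eq_abs, abs_mul, abs_of_pos (G_pos ζ), mul_comm]
        exact mul_le_mul_of_nonneg_right (hM s ⟨hs0.le, hsT.le⟩ _) (G_pos ζ).le)
      (by
        have c1 : Continuous (fun ζ => wx (z + c s * ζ) s) := (h.slice_cont_x hs0).comp (by fun_prop)
        have c2 : Continuous (fun ζ => wt (z + c s * ζ) s) := (h.slice_cont_t hs0).comp (by fun_prop)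
        exact (continuous_G.mul ((c1.mul (continuous_const.mul continuous_id)).add c2)).aestronglyMeasurable)
      (by
        refine Eventually.of_forall fun ζ r hr => ?_
        have hr' : r ∈ Icc a b := ⟨hr.1.le, hr.2.le⟩
        have e1 : |-ε / c r * ζ| ≤ ε / c b * |ζ| := by
          rw [abs_mul, abs_div, abs_neg, abs_of_pos hε]
          have hcr : c b ≤ c r := by
            rw [hc]
            apply Real.sqrt_le_sqrt
            have : T - b ≤ T - r := by linarith [hr.2]
            gcongr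
          rw [abs_of_pos (lt_of_lt_of_le hcb hcr)]
          gcongr
        rw [Real.norm_eq_abs, abs_mul, abs_of_pos (G_pos ζ)]
        have e2 : |wx (z + c r * ζ) r * (-ε / c r * ζ) + wt (z + c r * ζ) r| ≤
            M1 * (ε / c b * |ζ|) + M2 := by
          refine (abs_add_le _ _).trans (add_le_add ?_ (hM2 r hr' _))
          rw [abs_mul]
          exact mul_le_mul (hM1 r hr' _) e1 (abs_nonneg _) hM10
        calc G ζ * |wx (z + c r * ζ) r * (-ε / c r * ζ) + wt (z + c r * ζ) r|
            ≤ G ζ * (M1 * (ε / c b * |ζ|) + M2) := mul_le_mul_of_nonneg_left e2 (G_pos ζ).le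
          _ = _ := by ring)
      ((integrable_G_mul.const_mul _).add (integrable_G.const_mul _))
      (by
        refine Eventually.of_forall fun ζ r hr => ?_
        have hr0 : 0 < r := ha0.trans hr.1
        have hrT : r < T := hr.2.trans hbT
        have hX : HasDerivAt (fun r => z + c r * ζ) (-ε / c r * ζ) r :=
          ((hasDerivAt_scale hε hrT).mul_const ζ).const_add z
        have h1 := curve_deriv open_pos (fun q hq => h.dx q.2 hq q.1) (fun q hq => h.dt q.2 hq q.1)
          h.cx h.ct hX (hasDerivAt_id r) (s0 := r) (show (z + c r * ζ, id r) ∈ {q : ℝ × ℝ | 0 < q.2} from hr0)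
        have h2 := h1.const_mul (G ζ)
        refine h2.congr_deriv ?_
        simp)
    refine hF.2.congr_deriv ?_
    -- the derivative integral vanishes
    have c1 : Continuous (fun ζ => wx (z + c s * ζ) s) := (h.slice_cont_x hs0).comp (by fun_prop)
    have c2 : Continuous (fun ζ => wt (z + c s * ζ) s) := (h.slice_cont_t hs0).comp (by fun_prop)
    have hsI : s ∈ Icc a b := ⟨has.le, hsb.le⟩
    have i1 : Integrable (fun ζ => G ζ * (ζ * wx (z + c s * ζ) s)) := by
      refine (integrable_G_mul.const_mul M1).mono'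
        (continuous_G.mul (continuous_id.mul c1)).aestronglyMeasurable
        (Eventually.of_forall fun ζ => ?_)
      rw [Real.norm_eq_abs, abs_mul, abs_mul, abs_of_pos (G_pos ζ)]
      have := mul_le_mul_of_nonneg_left (hM1 s hsI (z + c s * ζ))
        (show 0 ≤ G ζ * |ζ| from mul_nonneg (G_pos ζ).le (abs_nonneg _))
      calc G ζ * (|ζ| * |wx (z + c s * ζ) s|) = G ζ * |ζ| * |wx (z + c s * ζ) s| := by ring
        _ ≤ G ζ * |ζ| * M1 := this
        _ = M1 * (|ζ| * G ζ) := by ring
    have i2 : Integrable (fun ζ => G ζ * wt (z + c s * ζ) s) := by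
      refine (integrable_G.const_mul M2).mono'
        (continuous_G.mul c2).aestronglyMeasurable (Eventually.of_forall fun ζ => ?_)
      rw [Real.norm_eq_abs, abs_mul, abs_of_pos (G_pos ζ), mul_comm]
      exact mul_le_mul_of_nonneg_right (hM2 s hsI _) (G_pos ζ).le
    have e1 : (∫ ζ, G ζ * (wx (z + c s * ζ) s * (-ε / c s * ζ) + wt (z + c s * ζ) s)) =
        (-ε / c s) * (∫ ζ, G ζ * (ζ * wx (z + c s * ζ) s)) + ∫ ζ, G ζ * wt (z + c s * ζ) s := by
      rw [← integral_const_mul, ← integral_add (i1.const_mul _) i2]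
      congr 1
      funext ζ
      ring
    rw [e1, h.ibp hs0]
    have e2 : ∫ ζ, G ζ * wt (z + c s * ζ) s = ε * ∫ ζ, G ζ * wxx (z + c s * ζ) s := by
      rw [← integral_const_mul]
      congr 1
      funext ζ
      rw [h.pde s hs0]
      ring
    have e3 : ∫ ζ, G ζ * (c s * wxx (z + c s * ζ) s) = c s * ∫ ζ, G ζ * wxx (z + c s * ζ) s := by
      rw [← integral_const_mul]
      congr 1
      funext ζ
      ring
    rw [e2, e3]
    field_simp
    ring
  obtain ⟨r, hr, hr2⟩ := exists_hasDerivAt_eq_slope Φ (fun _ => 0) hT hcont hder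
  have h1 : Φ T = Φ 0 := by
    have : (Φ T - Φ 0) / (T - 0) = 0 := hr2.symm
    rw [div_eq_zero_iff] at this
    rcases this with h' | h'
    · linarith
    · linarith
  have e1 : Φ T = (∫ ζ, G ζ) * w z T := by
    rw [hΦ]
    simp only [hc, sub_self, mul_zero, Real.sqrt_zero, zero_mul, add_zero]
    rw [integral_mul_const]
  have e2 : Φ 0 = ∫ ζ, G ζ * w (z + Real.sqrt (2 * ε * T) * ζ) 0 := by
    rw [hΦ]
    simp only [hc, sub_zero]
  rw [← e1, ← e2, h1]

end HeatSol

end Pool.Agent.R218.Adj
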