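import Pool.Agent.R218.Adj.Heat
import Pool.Agent.R218.Adj.Defs

namespace Pool.Agent.R218.Adj

open MeasureTheory Set Filter Topology

/-- `H(x,p) = p²/2`. -/
noncomputable def quadH (_ p : ℝ) : ℝ := p ^ 2 / 2

lemma deriv_quadH (x p : ℝ) : deriv (quadH x) p = p := by
  have h : HasDerivAt (quadH x) p p := by
    have := (hasDerivAt_pow 2 p).div_const 2
    refine this.congr_deriv ?_
    push_cast
    ring
  exact h.deriv

lemma quadH_hamiltonian : Hamiltonian quadH where
  smooth := by unfold quadH; fun_prop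
  periodic := fun x p => rfl
  convex := fun x => by
    have h := (even_two.convexOn_pow (𝕜 := ℝ)).smul (show (0:ℝ) ≤ 1 / 2 by norm_num)
    refine h.congr (fun p _ => ?_)
    simp only [quadH, smul_eq_mul]
    ring
  growth := fun M => by
    refine ⟨max (|M| + 2) 2, fun p hp x => ?_⟩
    have h1 : |M| + 2 ≤ |p| := (le_max_left _ _).trans hp
    have h2 : deriv (fun y => quadH y p) x = 0 := by
      simp [quadH]
    rw [h2]
    have h3 : M ≤ |M| := le_abs_self M
    have h4 : 0 ≤ |M| := abs_nonneg M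
    have h5 : p ^ 2 = |p| ^ 2 := (sq_abs p).symm
    have h6 : quadH x p ^ 2 = |p| ^ 4 / 4 := by
      unfold quadH
      rw [h5]
      ring
    rw [h6]
    have h7 : (2:ℝ) ≤ |p| := by linarith
    have h8 : |p| ^ 4 ≥ 8 * |p| := by
      have : |p| ^ 3 ≥ 2 ^ 3 := pow_le_pow_left₀ (by norm_num) h7 3
      nlinarith
    linarith

variable {g : ℝ → ℝ} {ε : ℝ} {u : ℝ → ℝ → ℝ}

/-- the Hopf-Cole transform -/
noncomputable def hc (ε : ℝ) (u : ℝ → ℝ → ℝ) (x t : ℝ) : ℝ := Real.exp (-(u x t) / (2 * ε))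

lemma hc_pos (x t : ℝ) : 0 < hc ε u x t := Real.exp_pos _

lemma heatSol_of_viscousSol (hε : 0 < ε) (hu : ViscousSol quadH g ε u) :
    ∃ wx wxx wt : ℝ → ℝ → ℝ, HeatSol ε (hc ε u) wx wxx wt ∧
      ∀ t, 0 < t → ∀ x, wx x t = -(Dx u x t) / (2 * ε) * hc ε u x t := by
  obtain ⟨ux, uxx, ut, h1, h2, h3, c1, c2, c3, pde⟩ := hu.sol
  have cw : ContinuousOn (fun q : ℝ × ℝ => hc ε u q.1 q.2) {q | 0 ≤ q.2} := by
    unfold hc
    have := hu.cont
    fun_prop
  have cw' : ContinuousOn (fun q : ℝ × ℝ => hc ε u q.1 q.2) {q | 0 < q.2} :=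
    cw.mono (fun q (hq : 0 < q.2) => (le_of_lt hq : 0 ≤ q.2))
  have dw : ∀ t, 0 < t → ∀ x, HasDerivAt (fun y => hc ε u y t)
      (-(ux x t) / (2 * ε) * hc ε u x t) x := by
    intro t ht x
    have := ((h1 t ht x).neg.div_const (2 * ε)).exp
    refine this.congr_deriv ?_
    unfold hc
    simp only [Pi.neg_apply]
    ring
  refine ⟨fun x t => -(ux x t) / (2 * ε) * hc ε u x t,
    fun x t => (-(uxx x t) / (2 * ε) + (ux x t) ^ 2 / (4 * ε ^ 2)) * hc ε u x t,
    fun x t => -(ut x t) / (2 * ε) * hc ε u x t, ⟨cw, ?_, dw, ?_, ?_, ?_, ?_, ?_, ?_⟩, ?_⟩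
  · intro t ht x
    unfold hc
    rw [hu.per t ht x]
  · intro t ht x
    have := ((h2 t ht x).neg.div_const (2 * ε)).mul (dw t ht x)
    refine this.congr_deriv ?_
    simp only [Pi.neg_apply]
    field_simp
    ring
  · intro t ht x
    have := ((h3 t ht x).neg.div_const (2 * ε)).exp
    refine this.congr_deriv ?_
    unfold hc
    simp only [Pi.neg_apply]
    ring
  · fun_prop
  · fun_prop
  · fun_prop
  · intro t ht x
    have := pde t ht x
    have e : ut x t = ε * uxx x t - (ux x t) ^ 2 / 2 := by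
      unfold quadH at this
      linarith
    rw [e]
    field_simp
    ring
  · intro t ht x
    have : Dx u x t = ux x t := (h1 t ht x).deriv
    rw [this]

/-- the exponent weight `exp (-(g y + y²/2)/(2ε))` -/
noncomputable def gibbs (g : ℝ → ℝ) (ε y : ℝ) : ℝ := Real.exp (-(g y + y ^ 2 / 2) / (2 * ε))

theorem ux_formula (hg : ContDiff ℝ 2 g) (hgp : ∀ x, g (x + 1) = g x) (hε : 0 < ε)
    (hu : ViscousSol quadH g ε u) :
    Dx u 0 1 * ∫ y, gibbs g ε y = - ∫ y, y * gibbs g ε y := by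
  obtain ⟨wx, wxx, wt, hw, hwx⟩ := heatSol_of_viscousSol hε hu
  set c := Real.sqrt (2 * ε) with hc'
  have hc0 : 0 < c := Real.sqrt_pos.mpr (by positivity)
  have hcsq : c ^ 2 = 2 * ε := Real.sq_sqrt (by positivity)
  set w0 : ℝ → ℝ := fun x => Real.exp (-(g x) / (2 * ε)) with hw0
  have hw0' : ∀ x, hc ε u x 0 = w0 x := fun x => by
    simp only [hc, hw0, hu.init x]
  have hrepr : ∀ z, (∫ ζ, G ζ) * hc ε u z 1 = ∫ ζ, G ζ * w0 (z + c * ζ) := by
    intro z
    have := hw.repr hε one_pos z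
    rw [mul_one, ← hc'] at this
    simpa only [hw0'] using this
  -- bounds for `w0` and its derivative
  have hgd : Differentiable ℝ g := hg.differentiable (by norm_num)
  have hgc : Continuous (deriv g) := hg.continuous_deriv (by norm_num)
  set w1 : ℝ → ℝ := fun x => -(deriv g x) / (2 * ε) * w0 x with hw1
  have hd : ∀ x, HasDerivAt w0 (w1 x) x := by
    intro x
    have := ((hgd x).hasDerivAt.neg.div_const (2 * ε)).exp
    refine this.congr_deriv ?_
    simp only [hw1, hw0, Pi.neg_apply]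
    ring
  have hw0c : Continuous w0 := by
    rw [hw0]
    have := hg.continuous
    fun_prop
  have hw1c : Continuous w1 := by
    rw [hw1]
    fun_prop
  have hp0 : ∀ x, w0 (x + 1) = w0 x := fun x => by simp only [hw0, hgp]
  have hp1 : ∀ x, w1 (x + 1) = w1 x := fun x => per_of_deriv hd hp0 x
  obtain ⟨M0, hM00, hM0⟩ := bdd_of_per (f := fun x _ => w0 x) (a := 0) (b := 0)
    (by exact (hw0c.comp continuous_fst).continuousOn) (fun _ _ x => hp0 x)
  obtain ⟨M1, hM10, hM1⟩ := bdd_of_per (f := fun x _ => w1 x) (a := 0) (b := 0)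
    (by exact (hw1c.comp continuous_fst).continuousOn) (fun _ _ x => hp1 x)
  have h00 : (0:ℝ) ∈ Icc (0:ℝ) 0 := ⟨le_rfl, le_rfl⟩
  -- derivative in `z`
  have hV : HasDerivAt (fun z => ∫ ζ, G ζ * w0 (z + c * ζ)) (∫ ζ, G ζ * w1 (0 + c * ζ)) 0 := by
    have := hasDerivAt_integral_of_dominated_loc_of_deriv_le (μ := volume)
      (F := fun z ζ => G ζ * w0 (z + c * ζ)) (F' := fun z ζ => G ζ * w1 (z + c * ζ))
      (x₀ := (0:ℝ)) (s := univ) (bound := fun ζ => M1 * G ζ) univ_mem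
      (Eventually.of_forall fun z =>
        (continuous_G.mul (hw0c.comp (by fun_prop))).aestronglyMeasurable)
      ((integrable_G.const_mul M0).mono'
        (continuous_G.mul (hw0c.comp (by fun_prop))).aestronglyMeasurable
        (Eventually.of_forall fun ζ => by
          rw [Real.norm_eq_abs, abs_mul, abs_of_pos (G_pos ζ), mul_comm]
          exact mul_le_mul_of_nonneg_right (hM0 0 h00 _) (G_pos ζ).le))
      (continuous_G.mul (hw1c.comp (by fun_prop))).aestronglyMeasurable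
      (Eventually.of_forall fun ζ z _ => by
          rw [Real.norm_eq_abs, abs_mul, abs_of_pos (G_pos ζ), mul_comm]
          exact mul_le_mul_of_nonneg_right (hM1 0 h00 _) (G_pos ζ).le)
      (integrable_G.const_mul M1)
      (Eventually.of_forall fun ζ z _ => ((hd (z + c * ζ)).comp_add_const z (c * ζ)).const_mul _)
    exact this.2
  have hL : HasDerivAt (fun z => (∫ ζ, G ζ) * hc ε u z 1) ((∫ ζ, G ζ) * wx 0 1) 0 :=
    (hw.dx 1 one_pos 0).const_mul _
  have e0 : (fun z => (∫ ζ, G ζ) * hc ε u z 1) = fun z => ∫ ζ, G ζ * w0 (z + c * ζ) :=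
    funext hrepr
  rw [e0] at hL
  have e1 : (∫ ζ, G ζ) * wx 0 1 = ∫ ζ, G ζ * w1 (0 + c * ζ) := hL.unique hV
  -- integration by parts
  have sc0 : Continuous (fun ζ => w0 (c * ζ)) := hw0c.comp (by fun_prop)
  have sc1 : Continuous (fun ζ => w1 (c * ζ)) := hw1c.comp (by fun_prop)
  have e2 : c * ∫ ζ, G ζ * w1 (0 + c * ζ) = ∫ ζ, ζ * (G ζ * w0 (c * ζ)) := by
    have key := integral_mul_deriv_eq_deriv_mul_of_integrable
      (u := fun ζ => w0 (c * ζ)) (u' := fun ζ => w1 (c * ζ) * c) (v := G)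
      (v' := fun ζ => -ζ * G ζ)
      (fun ζ _ => by
        have h1 : HasDerivAt (fun ζ : ℝ => c * ζ) c ζ := by
          simpa using ((hasDerivAt_id ζ).const_mul c)
        exact (hd (c * ζ)).comp ζ h1) (fun ζ _ => hasDerivAt_G ζ)
      (by
        refine (integrable_G_mul.const_mul M0).mono' (by
          exact (sc0.mul ((continuous_id.neg).mul continuous_G)).aestronglyMeasurable)
          (Eventually.of_forall fun ζ => ?_)
        simp only [Pi.mul_apply]
        rw [Real.norm_eq_abs, abs_mul, abs_mul, abs_neg, abs_of_pos (G_pos ζ)]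
        exact mul_le_mul_of_nonneg_right (hM0 0 h00 _) (by positivity [G_pos ζ]))
      (by
        refine (integrable_G.const_mul (M1 * |c|)).mono' (by
          exact ((sc1.mul_const c).mul continuous_G).aestronglyMeasurable)
          (Eventually.of_forall fun ζ => ?_)
        simp only [Pi.mul_apply]
        rw [Real.norm_eq_abs, abs_mul, abs_mul, abs_of_pos (G_pos ζ)]
        exact mul_le_mul_of_nonneg_right (mul_le_mul_of_nonneg_right (hM1 0 h00 _) (abs_nonneg _))
          (G_pos ζ).le)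
      (by
        refine (integrable_G.const_mul M0).mono' (by
          exact (sc0.mul continuous_G).aestronglyMeasurable)
          (Eventually.of_forall fun ζ => ?_)
        simp only [Pi.mul_apply]
        rw [Real.norm_eq_abs, abs_mul, abs_of_pos (G_pos ζ)]
        exact mul_le_mul_of_nonneg_right (hM0 0 h00 _) (G_pos ζ).le)
    have f1 : ∫ ζ, w0 (c * ζ) * (-ζ * G ζ) = - ∫ ζ, ζ * (G ζ * w0 (c * ζ)) := by
      rw [← integral_neg]
      congr 1
      funext ζ
      ring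
    have f2 : ∫ ζ, w1 (c * ζ) * c * G ζ = c * ∫ ζ, G ζ * w1 (0 + c * ζ) := by
      rw [← integral_const_mul]
      congr 1
      funext ζ
      rw [zero_add]
      ring
    rw [f1, f2] at key
    linarith
  -- change of variables `y = c ζ`
  have hgib : ∀ ζ, G ζ * w0 (c * ζ) = gibbs g ε (c * ζ) := by
    intro ζ
    simp only [G, hw0, gibbs]
    rw [← Real.exp_add]
    congr 1
    rw [mul_pow, hcsq]
    field_simp
    ring
  have cv1 : ∫ ζ, gibbs g ε (c * ζ) = c⁻¹ * ∫ y, gibbs g ε y := by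
    rw [Measure.integral_comp_mul_left (gibbs g ε) c, abs_of_pos (inv_pos.mpr hc0), smul_eq_mul]
  have cv2 : ∫ ζ, (c * ζ) * gibbs g ε (c * ζ) = c⁻¹ * ∫ y, y * gibbs g ε y := by
    rw [Measure.integral_comp_mul_left (fun y => y * gibbs g ε y) c,
      abs_of_pos (inv_pos.mpr hc0), smul_eq_mul]
  have cv3 : ∫ ζ, (c * ζ) * gibbs g ε (c * ζ) = c * ∫ ζ, ζ * (G ζ * w0 (c * ζ)) := by
    rw [← integral_const_mul]
    congr 1
    funext ζ
    rw [hgib]
    ring
  have r0 : (∫ ζ, G ζ) * hc ε u 0 1 = c⁻¹ * ∫ y, gibbs g ε y := by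
    rw [hrepr 0, ← cv1]
    congr 1
    funext ζ
    rw [zero_add, hgib]
  have hx := hwx 1 one_pos 0
  rw [hx] at e1
  have hDx : Dx u 0 1 * ((∫ ζ, G ζ) * hc ε u 0 1) = - (2 * ε) * ∫ ζ, G ζ * w1 (0 + c * ζ) := by
    rw [← e1]
    field_simp
  rw [r0] at hDx
  have e3 : c * (c * ∫ ζ, G ζ * w1 (0 + c * ζ)) = c⁻¹ * ∫ y, y * gibbs g ε y := by
    rw [e2, ← cv3, cv2]
  have e4 : (2 * ε) * ∫ ζ, G ζ * w1 (0 + c * ζ) = c⁻¹ * ∫ y, y * gibbs g ε y := by
    rw [← e3, ← hcsq]
    ring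
  have e5 : c⁻¹ * (Dx u 0 1 * ∫ y, gibbs g ε y) = c⁻¹ * (- ∫ y, y * gibbs g ε y) := by
    calc c⁻¹ * (Dx u 0 1 * ∫ y, gibbs g ε y) = Dx u 0 1 * (c⁻¹ * ∫ y, gibbs g ε y) := by ring
      _ = - ((2 * ε) * ∫ ζ, G ζ * w1 (0 + c * ζ)) := by rw [hDx]; ring
      _ = _ := by rw [e4]; ring
  exact mul_left_cancel₀ (inv_ne_zero hc0.ne') e5

end Pool.Agent.R218.Adj
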