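import Pool.Agent.R218.Adj.Osc

namespace Pool.Agent.R218.Adj

open MeasureTheory Set Filter Topology

/-- the dominating function -/
noncomputable def dom (x : ℝ) : ℝ := (2 + |x|) * Real.exp (-(1 / 10) * x ^ 2 + 1 / 10)

lemma integrable_dom : Integrable dom := by
  have h1 : Integrable (fun x : ℝ => Real.exp (-(1 / 10) * x ^ 2)) :=
    integrable_exp_neg_mul_sq (by norm_num)
  have h2 : Integrable (fun x : ℝ => |x| * Real.exp (-(1 / 10) * x ^ 2)) := by
    have h := integrable_mul_exp_neg_mul_sq (b := 1 / 10) (by norm_num)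
    refine h.norm.congr (Eventually.of_forall fun ζ => ?_)
    simp only [norm_mul, Real.norm_eq_abs, Real.abs_exp]
  have h3 := ((h1.const_mul 2).add h2).mul_const (Real.exp (1 / 10))
  refine h3.congr (Eventually.of_forall fun x => ?_)
  simp only [dom, Pi.add_apply]
  rw [Real.exp_add]
  ring

/-- Laplace method at one well -/
lemma well_limit {f : ℝ → ℝ} {S : Set ℝ} (hS : MeasurableSet S) {a : ℝ} (hSa : S ∈ 𝓝 a)
    (hf : Continuous f) (hfb : ∀ y, |f y| ≤ 2 + |y - a|) (hlow : ∀ y ∈ S, low (y - a) ≤ Psi y)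
    {r : ℕ → ℝ} (hr : ∀ k, 0 < r k) (hr1 : ∀ k, r k ≤ 1) (hr0 : Tendsto r atTop (𝓝 0))
    {c : ℝ → ℝ} (hpt : ∀ x, Tendsto (fun k => Psi (a + r k * x) / (2 * r k ^ 4)) atTop (𝓝 (c x))) :
    Tendsto (fun k => (r k)⁻¹ * ∫ y in S, f y * Real.exp (-(Psi y) / (2 * r k ^ 4))) atTop
      (𝓝 (f a * ∫ x, Real.exp (-(c x)))) := by
  set F : ℕ → ℝ → ℝ := fun k => S.indicator (fun y => f y * Real.exp (-(Psi y) / (2 * r k ^ 4)))
    with hF
  have hcv : ∀ k, (r k)⁻¹ * ∫ y in S, f y * Real.exp (-(Psi y) / (2 * r k ^ 4)) =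
      ∫ x, F k (a + r k * x) := by
    intro k
    rw [← integral_indicator hS]
    have h1 : ∫ x, F k (a + r k * x) = ∫ x, (fun y => F k (a + y)) (r k * x) := rfl
    rw [h1, Measure.integral_comp_mul_left (fun y => F k (a + y)) (r k),
      abs_of_pos (inv_pos.mpr (hr k)), smul_eq_mul, integral_add_left_eq_self (F k) a]
  have hFm : ∀ k, Measurable (F k) := by
    intro k
    refine Measurable.indicator ?_ hS
    have := continuous_Psi
    exact (Continuous.measurable (by fun_prop))
  have hlim : Tendsto (fun k => ∫ x, F k (a + r k * x)) atTop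
      (𝓝 (∫ x, f a * Real.exp (-(c x)))) := by
    apply tendsto_integral_of_dominated_convergence dom
    · intro k
      exact ((hFm k).comp (by fun_prop)).aestronglyMeasurable
    · exact integrable_dom
    · intro k
      refine Eventually.of_forall fun x => ?_
      rw [hF]
      simp only [indicator]
      split_ifs with hx
      · rw [Real.norm_eq_abs, abs_mul, Real.abs_exp]
        unfold dom
        have hk := hr k
        have hk1 := hr1 k
        apply mul_le_mul
        · refine (hfb _).trans ?_
          rw [add_sub_cancel_left, abs_mul, abs_of_pos hk]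
          have := abs_nonneg x
          nlinarith
        · apply Real.exp_le_exp.mpr
          have h1 := hlow _ hx
          rw [add_sub_cancel_left] at h1
          have h2 : r k ^ 4 * ((x ^ 2 - 1) / 5) ≤ low (r k * x) := by
            unfold low
            rw [le_div_iff₀ (by positivity)]
            have h3 : (x ^ 2 - 1) * (1 + (r k * x) ^ 2) ≤ x ^ 4 := by
              have h4 : (r k * x) ^ 2 ≤ x ^ 2 := by
                rw [mul_pow]
                have : r k ^ 2 ≤ 1 := pow_le_one₀ hk.le hk1
                nlinarith [sq_nonneg x]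
              rcases le_or_gt 1 (x ^ 2) with h5 | h5
              · nlinarith [mul_le_mul_of_nonneg_left h4 (sub_nonneg.mpr h5)]
              · have h6 : (x ^ 2 - 1) * (1 + (r k * x) ^ 2) ≤ 0 :=
                  mul_nonpos_of_nonpos_of_nonneg (by linarith) (by positivity)
                have : 0 ≤ x ^ 4 := by positivity
                linarith
            have h7 : 0 ≤ r k ^ 4 := by positivity
            calc r k ^ 4 * ((x ^ 2 - 1) / 5) * (5 * (1 + (r k * x) ^ 2))
                = r k ^ 4 * ((x ^ 2 - 1) * (1 + (r k * x) ^ 2)) := by ring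
              _ ≤ r k ^ 4 * x ^ 4 := mul_le_mul_of_nonneg_left h3 h7
              _ = (r k * x) ^ 4 := by ring
          have h3 : r k ^ 4 * ((x ^ 2 - 1) / 5) ≤ Psi (a + r k * x) := h2.trans h1
          rw [neg_div, neg_le_iff_add_nonneg]
          have h4 : (x ^ 2 - 1) / 10 ≤ Psi (a + r k * x) / (2 * r k ^ 4) := by
            rw [le_div_iff₀ (by positivity)]
            linarith
          linarith
        · exact (Real.exp_pos _).le
        · positivity
      · rw [norm_zero]
        unfold dom
        positivity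
    · refine Eventually.of_forall fun x => ?_
      have hax : Tendsto (fun k => a + r k * x) atTop (𝓝 a) := by
        have := (hr0.mul_const x).const_add a
        simpa using this
      have hin : ∀ᶠ k in atTop, a + r k * x ∈ S := hax.eventually hSa
      have h1 : Tendsto (fun k => f (a + r k * x) *
          Real.exp (-(Psi (a + r k * x)) / (2 * r k ^ 4))) atTop (𝓝 (f a * Real.exp (-(c x)))) := by
        apply ((hf.tendsto a).comp hax).mul
        have h2 := (Real.continuous_exp.tendsto _).comp (hpt x).neg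
        refine h2.congr (fun k => ?_)
        simp only [Function.comp_apply, neg_div]
      refine h1.congr' ?_
      filter_upwards [hin] with k hk
      rw [hF]
      simp only
      rw [indicator_of_mem hk]
  have e : ∫ x, f a * Real.exp (-(c x)) = f a * ∫ x, Real.exp (-(c x)) := integral_const_mul _ _
  rw [e] at hlim
  exact hlim.congr (fun k => (hcv k).symm)

/-- the quartic integral -/
noncomputable def J (c : ℝ) : ℝ := ∫ x, Real.exp (-(c * x ^ 4 / 2))

lemma J_sixteen : J 16 = J 1 / 2 := by
  have h := Measure.integral_comp_mul_left (fun x : ℝ => Real.exp (-(1 * x ^ 4 / 2))) 2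
  have e : ∀ x : ℝ, Real.exp (-(1 * (2 * x) ^ 4 / 2)) = Real.exp (-(16 * x ^ 4 / 2)) := by
    intro x
    congr 1
    ring
  simp only [e] at h
  unfold J
  rw [h]
  rw [abs_of_pos (by norm_num : (0:ℝ) < 2⁻¹), smul_eq_mul]
  ring

lemma J_one_pos : 0 < J 1 := by
  unfold J
  have hint : Integrable (fun x : ℝ => Real.exp (-(1 * x ^ 4 / 2))) := by
    refine integrable_dom.mono' (by
      exact (Continuous.aestronglyMeasurable (by fun_prop))) (Eventually.of_forall fun x => ?_)
    rw [Real.norm_eq_abs, Real.abs_exp]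
    unfold dom
    have h1 : Real.exp (-(1 * x ^ 4 / 2)) ≤ Real.exp (-(1 / 10) * x ^ 2 + 1 / 10) := by
      apply Real.exp_le_exp.mpr
      nlinarith [sq_nonneg (x ^ 2 - 1), sq_nonneg x]
    have h2 := abs_nonneg x
    have h3 := Real.exp_pos (-(1 / 10) * x ^ 2 + 1 / 10)
    nlinarith
  rw [integral_pos_iff_support_of_nonneg (fun x => (Real.exp_pos _).le) hint]
  have : Function.support (fun x : ℝ => Real.exp (-(1 * x ^ 4 / 2))) = univ := by
    ext x
    simp [(Real.exp_pos _).ne']
  rw [this]
  simp

/-- the sequences -/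
noncomputable def rs (q : ℝ) (k : ℕ) : ℝ :=
  Real.exp (-Real.sqrt (Real.exp (2 * Real.pi * (k + 1) + q) - 1))

lemma rs_pos (q : ℝ) (k : ℕ) : 0 < rs q k := Real.exp_pos _

lemma rs_le_one (q : ℝ) (k : ℕ) : rs q k ≤ 1 := by
  unfold rs
  rw [Real.exp_le_one_iff]
  have := Real.sqrt_nonneg (Real.exp (2 * Real.pi * (k + 1) + q) - 1)
  linarith

lemma rs_lt_one {q : ℝ} (hq : -2 ≤ q) (k : ℕ) : rs q k < 1 := by
  unfold rs
  rw [Real.exp_lt_one_iff, neg_lt_zero]
  apply Real.sqrt_pos.mpr
  have h1 : 0 < 2 * Real.pi * (k + 1) + q := by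
    have := Real.pi_gt_three
    have hk : (0:ℝ) ≤ k := Nat.cast_nonneg k
    nlinarith
  have := Real.add_one_lt_exp h1.ne'
  linarith

lemma ph_rs {q : ℝ} (hq : -2 ≤ q) (k : ℕ) : ph (rs q k) = 2 * Real.pi * (k + 1) + q := by
  unfold ph rs
  have h1 : 0 < 2 * Real.pi * (k + 1) + q := by
    have := Real.pi_gt_three
    have hk : (0:ℝ) ≤ k := Nat.cast_nonneg k
    nlinarith
  have h2 : 0 ≤ Real.exp (2 * Real.pi * (k + 1) + q) - 1 := by
    have := Real.add_one_le_exp (2 * Real.pi * (k + 1) + q)
    linarith
  rw [Real.log_exp, neg_sq, Real.sq_sqrt h2]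
  rw [show 1 + (Real.exp (2 * Real.pi * (k + 1) + q) - 1) = Real.exp (2 * Real.pi * (k + 1) + q) by
    ring, Real.log_exp]

lemma sin_ph_rs {q : ℝ} (hq : -2 ≤ q) (k : ℕ) : Real.sin (ph (rs q k)) = Real.sin q := by
  rw [ph_rs hq]
  have := Real.sin_add_nat_mul_two_pi q (k + 1)
  rw [← this]
  congr 1
  push_cast
  ring

lemma rs_tendsto (q : ℝ) : Tendsto (rs q) atTop (𝓝 0) := by
  unfold rs
  apply Real.tendsto_exp_neg_atTop_nhds_zero.comp
  apply Real.tendsto_sqrt_atTop.comp
  apply tendsto_atTop_add_const_right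
  apply Real.tendsto_exp_atTop.comp
  apply tendsto_atTop_add_const_right
  apply Tendsto.const_mul_atTop (by positivity)
  apply tendsto_atTop_add_const_right
  exact tendsto_natCast_atTop_atTop

/-- the limits of the numerator and denominator along the sequences -/
lemma gibbs_limit {q : ℝ} (hq : -2 ≤ q) {f : ℝ → ℝ} (hf : Continuous f)
    (hfb : ∀ y, |f y| ≤ 1 + |y|) :
    Tendsto (fun k => (rs q k)⁻¹ * ∫ y, f y * gibbs g0 (rs q k ^ 4) y) atTop
      (𝓝 (f (1 / 4) * J (17 / 2 + 15 / 2 * Real.sin q) + f (-1 / 4) * J 1)) := by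
  have hr := rs_pos q
  have hr1 := rs_le_one q
  have hr0 := rs_tendsto q
  -- right well
  have hR := well_limit (f := f) (S := Ioi 0) measurableSet_Ioi (a := 1 / 4)
    (Ioi_mem_nhds (by norm_num)) hf
    (fun y => (hfb y).trans (by
      have : |y| ≤ |y - 1 / 4| + |(1/4 : ℝ)| := by
        calc |y| = |(y - 1 / 4) + 1 / 4| := by ring_nf
          _ ≤ _ := abs_add_le _ _
      rw [abs_of_pos (by norm_num : (0:ℝ) < 1 / 4)] at this
      linarith))
    (fun y hy => Psi_low.1 (le_of_lt hy)) hr hr1 hr0
    (c := fun x => (17 / 2 + 15 / 2 * Real.sin q) * x ^ 4 / 2) (by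
      intro x
      by_cases hx : x = 0
      · subst hx
        have e : ∀ k, Psi (1 / 4 + rs q k * 0) / (2 * rs q k ^ 4) = 0 := by
          intro k
          rw [mul_zero, add_zero, Psi_right (by norm_num)]
          simp [B]
        simp only [e]
        simp
      · have h1 := slow hr hr0 (sin_ph_rs hq) hx
        have h2 : Tendsto (fun k => x ^ 4 * th (rs q k * x) / 2) atTop
            (𝓝 (x ^ 4 * (17 / 2 + 15 / 2 * Real.sin q) / 2)) := (h1.const_mul _).div_const _
        have e2 : x ^ 4 * (17 / 2 + 15 / 2 * Real.sin q) / 2 =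
            (17 / 2 + 15 / 2 * Real.sin q) * x ^ 4 / 2 := by ring
        rw [e2] at h2
        refine h2.congr' ?_
        have h3 : Tendsto (fun k => |rs q k * x|) atTop (𝓝 0) := by
          have := (hr0.mul_const x).abs
          simpa using this
        filter_upwards [h3.eventually (gt_mem_nhds (show (0:ℝ) < 1 / 16 by norm_num))] with k hk
        rw [Psi_right (by rw [add_sub_cancel_left]; exact le_of_lt hk), add_sub_cancel_left]
        unfold B
        have := (hr k).ne'
        field_simp)
  have hL := well_limit (f := f) (S := Iic 0) measurableSet_Iic (a := -1 / 4)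
    (Iic_mem_nhds (by norm_num)) hf
    (fun y => (hfb y).trans (by
      have : |y| ≤ |y - -1 / 4| + |(-1/4 : ℝ)| := by
        calc |y| = |(y - -1 / 4) + -1 / 4| := by ring_nf
          _ ≤ _ := abs_add_le _ _
      rw [show |(-1/4 : ℝ)| = 1 / 4 by norm_num] at this
      linarith))
    (fun y hy => by
      rw [show y - -1 / 4 = y + 1 / 4 by ring]
      exact Psi_low.2 hy) hr hr1 hr0
    (c := fun x => 1 * x ^ 4 / 2) (by
      intro x
      have h3 : Tendsto (fun k => |rs q k * x|) atTop (𝓝 0) := by
        have := (hr0.mul_const x).abs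
        simpa using this
      refine tendsto_const_nhds.congr' ?_
      filter_upwards [h3.eventually (gt_mem_nhds (show (0:ℝ) < 1 / 16 by norm_num))] with k hk
      rw [Psi_left (by
        rw [show -1 / 4 + rs q k * x + 1 / 4 = rs q k * x by ring]; exact le_of_lt hk)]
      rw [show -1 / 4 + rs q k * x + 1 / 4 = rs q k * x by ring]
      have := (hr k).ne'
      field_simp)
  have hsum := hR.add hL
  unfold J
  refine hsum.congr (fun k => ?_)
  rw [← mul_add]
  congr 1
  -- integrability for the splitting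
  have hg : ∀ y, gibbs g0 (rs q k ^ 4) y = Real.exp (-(Psi y) / (2 * rs q k ^ 4)) := by
    intro y
    rfl
  have hint : Integrable (fun y => f y * Real.exp (-(Psi y) / (2 * rs q k ^ 4))) := by
    have hk := hr k
    set ε := rs q k ^ 4 with hε
    have hε0 : 0 < ε := by positivity
    have hcont : Continuous (fun y => f y * Real.exp (-(Psi y) / (2 * ε))) := by
      have := continuous_Psi
      fun_prop
    have hb : 0 < 1 / (40 * ε) := by positivity
    have i1 : Integrable (fun y : ℝ => Real.exp (-(1 / (40 * ε)) * y ^ 2)) :=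
      integrable_exp_neg_mul_sq hb
    have i2 : Integrable (fun x : ℝ => |x| * Real.exp (-(1 / (40 * ε)) * x ^ 2)) := by
      have h := integrable_mul_exp_neg_mul_sq hb
      refine h.norm.congr (Eventually.of_forall fun ζ => ?_)
      simp only [norm_mul, Real.norm_eq_abs, Real.abs_exp]
    have i3 := (i1.add i2).const_mul (Real.exp (1 / ε))
    refine i3.mono' hcont.aestronglyMeasurable (Eventually.of_forall fun y => ?_)
    rw [Real.norm_eq_abs, abs_mul, Real.abs_exp]
    have hlow : y ^ 2 / 20 - 1 ≤ Psi y := by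
      have hq5 : ∀ s : ℝ, (s ^ 2 - 1) / 5 ≤ low s := by
        intro s
        unfold low
        rw [div_le_div_iff₀ (by norm_num) (by positivity)]
        nlinarith [sq_nonneg s]
      rcases le_total 0 y with h | h
      · have h1 := Psi_low.1 h
        have h2 := hq5 (y - 1 / 4)
        nlinarith [sq_nonneg (y - 1)]
      · have h1 := Psi_low.2 h
        have h2 := hq5 (y + 1 / 4)
        nlinarith [sq_nonneg (y + 1)]
    have h1 : Real.exp (-(Psi y) / (2 * ε)) ≤
        Real.exp (1 / ε) * Real.exp (-(1 / (40 * ε)) * y ^ 2) := by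
      rw [← Real.exp_add]
      apply Real.exp_le_exp.mpr
      rw [div_le_iff₀ (by positivity)]
      have e : (1 / ε + -(1 / (40 * ε)) * y ^ 2) * (2 * ε) = 2 - y ^ 2 / 20 := by
        field_simp
        ring
      rw [e]
      linarith
    calc |f y| * Real.exp (-(Psi y) / (2 * ε))
        ≤ (1 + |y|) * (Real.exp (1 / ε) * Real.exp (-(1 / (40 * ε)) * y ^ 2)) :=
          mul_le_mul (hfb y) h1 (Real.exp_pos _).le (by positivity)
      _ = _ := by simp only [Pi.add_apply]; ring
  simp only [hg]
  have hsplit := integral_add_compl (measurableSet_Ioi (a := (0:ℝ))) hint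
  rw [compl_Ioi] at hsplit
  exact hsplit

end Pool.Agent.R218.Adj
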