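import Pool.Agent.R218.Adj.Well
import Pool.Agent.R218.Adj.HopfCole

/-!
# The oscillating initial datum
-/

namespace Pool.Agent.R218.Adj

open MeasureTheory Set Filter Topology

/-- smooth bump around `a` -/
noncomputable def bump (a : ℝ) : ContDiffBump a := ⟨1 / 16, 1 / 8, by norm_num, by norm_num⟩

lemma bump_one {a y : ℝ} (h : |y - a| ≤ 1 / 16) : bump a y = 1 :=
  (bump a).one_of_mem_closedBall (by rwa [Metric.mem_closedBall, Real.dist_eq])

lemma bump_zero {a y : ℝ} (h : 1 / 8 ≤ |y - a|) : bump a y = 0 :=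
  (bump a).zero_of_le_dist (by rwa [Real.dist_eq])

lemma bump_nonneg (a y : ℝ) : 0 ≤ bump a y := (bump a).nonneg

lemma bump_le_one (a y : ℝ) : bump a y ≤ 1 := (bump a).le_one

/-- the compactly supported profile -/
noncomputable def hh (y : ℝ) : ℝ :=
  - bump (1 / 4) y * (1 + y ^ 2 / 2 - B (y - 1 / 4))
  - bump (-1 / 4) y * (1 + y ^ 2 / 2 - (y + 1 / 4) ^ 4)

lemma contDiff_hh : ContDiff ℝ 2 hh := by
  unfold hh
  have h1 : ContDiff ℝ 2 (fun y : ℝ => (bump (1 / 4) : ℝ → ℝ) y) := (bump (1 / 4)).contDiff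
  have h2 : ContDiff ℝ 2 (fun y : ℝ => (bump (-1 / 4) : ℝ → ℝ) y) := (bump (-1 / 4)).contDiff
  have h3 : ContDiff ℝ 2 (fun y : ℝ => B (y - 1 / 4)) := contDiff_B.comp (by fun_prop)
  fun_prop

lemma hh_zero {y : ℝ} (h : 3 / 8 ≤ |y|) : hh y = 0 := by
  unfold hh
  have h1 : 1 / 8 ≤ |y - 1 / 4| := by
    rcases le_abs'.mp h with h | h
    · rw [le_abs']; left; linarith
    · rw [le_abs']; right; linarith
  have h2 : 1 / 8 ≤ |y - -1 / 4| := by
    rcases le_abs'.mp h with h | h
    · rw [le_abs']; left; linarith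
    · rw [le_abs']; right; linarith
  rw [bump_zero h1, bump_zero h2]
  ring

/-- the representative of `y` in `[-1/2, 1/2)` -/
noncomputable def rr (y : ℝ) : ℝ := y - ⌊y + 1 / 2⌋

lemma rr_add_one (y : ℝ) : rr (y + 1) = rr y := by
  unfold rr
  have : y + 1 + 1 / 2 = (y + 1 / 2) + 1 := by ring
  rw [this, Int.floor_add_one]
  push_cast
  ring

lemma rr_mem (y : ℝ) : -1 / 2 ≤ rr y ∧ rr y < 1 / 2 := by
  unfold rr
  have h1 := Int.floor_le (y + 1 / 2)
  have h2 := Int.lt_floor_add_one (y + 1 / 2)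
  constructor <;> linarith

/-- the initial datum -/
noncomputable def g0 (y : ℝ) : ℝ := 1 + hh (rr y)

lemma g0_periodic (y : ℝ) : g0 (y + 1) = g0 y := by
  unfold g0
  rw [rr_add_one]

lemma hh_rr_eq {y : ℝ} {k : ℤ} (h : |y - k| < 5 / 8) : hh (rr y) = hh (y - k) := by
  rw [abs_lt] at h
  unfold rr
  rcases lt_or_ge (y - k) (-1 / 2) with h1 | h1
  · have hf : ⌊y + 1 / 2⌋ = k - 1 := by
      rw [Int.floor_eq_iff]
      push_cast
      constructor <;> linarith
    rw [hf]
    push_cast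
    rw [hh_zero (y := y - (k - 1)), hh_zero (y := y - k)]
    · rw [le_abs']; left; linarith
    · rw [le_abs']; right; linarith
  · rcases lt_or_ge (y - k) (1 / 2) with h2 | h2
    · have hf : ⌊y + 1 / 2⌋ = k := by
        rw [Int.floor_eq_iff]
        constructor <;> linarith
      rw [hf]
    · have hf : ⌊y + 1 / 2⌋ = k + 1 := by
        rw [Int.floor_eq_iff]
        push_cast
        constructor <;> linarith
      rw [hf]
      push_cast
      rw [hh_zero (y := y - (k + 1)), hh_zero (y := y - k)]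
      · rw [le_abs']; right; linarith
      · rw [le_abs']; left; linarith

lemma contDiff_g0 : ContDiff ℝ 2 g0 := by
  rw [contDiff_iff_contDiffAt]
  intro y0
  set k := ⌊y0 + 1 / 2⌋ with hk
  have h1 := rr_mem y0
  unfold rr at h1
  rw [← hk] at h1
  have hev : g0 =ᶠ[𝓝 y0] fun y => 1 + hh (y - k) := by
    have : Metric.ball y0 (1 / 8) ∈ 𝓝 y0 := Metric.ball_mem_nhds _ (by norm_num)
    filter_upwards [this] with y hy
    rw [Metric.mem_ball, Real.dist_eq, abs_lt] at hy
    unfold g0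
    rw [hh_rr_eq]
    rw [abs_lt]
    constructor <;> linarith [h1.1, h1.2, hy.1, hy.2]
  have h2 : ContDiff ℝ 2 (fun y => 1 + hh (y - k)) :=
    contDiff_const.add (contDiff_hh.comp (by fun_prop))
  exact h2.contDiffAt.congr_of_eventuallyEq hev

/-- the phase function -/
noncomputable def Psi (y : ℝ) : ℝ := g0 y + y ^ 2 / 2

lemma continuous_Psi : Continuous Psi := by
  unfold Psi
  have := contDiff_g0.continuous
  fun_prop

lemma Psi_right {y : ℝ} (h : |y - 1 / 4| ≤ 1 / 16) : Psi y = B (y - 1 / 4) := by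
  rw [abs_le] at h
  have h1 : hh (rr y) = hh (y - (0:ℤ)) := hh_rr_eq (by
    rw [abs_lt]; push_cast; constructor <;> linarith [h.1, h.2])
  unfold Psi g0
  rw [h1]
  unfold hh
  push_cast
  rw [sub_zero, bump_one (by rw [abs_le]; exact h), bump_zero (by
    rw [le_abs']; right; linarith [h.1])]
  ring

lemma Psi_left {y : ℝ} (h : |y + 1 / 4| ≤ 1 / 16) : Psi y = (y + 1 / 4) ^ 4 := by
  rw [abs_le] at h
  have h1 : hh (rr y) = hh (y - (0:ℤ)) := hh_rr_eq (by
    rw [abs_lt]; push_cast; constructor <;> linarith [h.1, h.2])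
  unfold Psi g0
  rw [h1]
  unfold hh
  push_cast
  rw [sub_zero, bump_one (a := -1 / 4) (by rw [abs_le]; constructor <;> linarith [h.1, h.2]),
    bump_zero (a := 1 / 4) (by rw [le_abs']; left; linarith [h.2])]
  ring

/-- the lower comparison function -/
noncomputable def low (s : ℝ) : ℝ := s ^ 4 / (5 * (1 + s ^ 2))

lemma low_le_sq (s : ℝ) : low s ≤ s ^ 2 / 5 := by
  unfold low
  rw [div_le_div_iff₀ (by positivity) (by norm_num)]
  nlinarith [sq_nonneg s]

lemma low_le_pow (s : ℝ) : low s ≤ s ^ 4 := by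
  unfold low
  rw [div_le_iff₀ (by positivity)]
  have : 0 ≤ s ^ 4 := by positivity
  nlinarith [sq_nonneg s]

/-- lower bound of the phase -/
lemma Psi_low {y : ℝ} : (0 ≤ y → low (y - 1 / 4) ≤ Psi y) ∧ (y ≤ 0 → low (y + 1 / 4) ≤ Psi y) := by
  have hr := rr_mem y
  set r := rr y with hrd
  have hy : y = r + ⌊y + 1 / 2⌋ := by rw [hrd]; unfold rr; ring
  set k := ⌊y + 1 / 2⌋ with hk
  -- crude bounds
  have l1 : low (y - 1 / 4) ≤ 2 / 5 * y ^ 2 + 1 / 40 := by
    have := low_le_sq (y - 1 / 4)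
    nlinarith [sq_nonneg (y + 1 / 4)]
  have l2 : low (y + 1 / 4) ≤ 2 / 5 * y ^ 2 + 1 / 40 := by
    have := low_le_sq (y + 1 / 4)
    nlinarith [sq_nonneg (y - 1 / 4)]
  have l3 : 0 ≤ y → 1 / 2 ≤ y → low (y - 1 / 4) ≤ y ^ 2 / 5 := by
    intro _ h
    have := low_le_sq (y - 1 / 4)
    nlinarith
  have l4 : y ≤ 0 → y ≤ -1 / 2 → low (y + 1 / 4) ≤ y ^ 2 / 5 := by
    intro _ h
    have := low_le_sq (y + 1 / 4)
    nlinarith
  have hP : Psi y = 1 + y ^ 2 / 2 - bump (1 / 4) r * (1 + r ^ 2 / 2 - B (r - 1 / 4))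
      - bump (-1 / 4) r * (1 + r ^ 2 / 2 - (r + 1 / 4) ^ 4) := by
    unfold Psi g0 hh
    ring
  by_cases hc1 : |r - 1 / 4| < 1 / 8
  · -- right support
    have hc1' := abs_lt.mp hc1
    have hb2 : bump (-1 / 4) r = 0 := bump_zero (by rw [le_abs']; right; linarith [hc1'.1])
    rw [hb2] at hP
    have b0 := bump_nonneg (1 / 4) r
    have b1 := bump_le_one (1 / 4) r
    set χ := bump (1 / 4) r with hχ
    have hB := B_ge (r - 1 / 4)
    have hB0 : 0 ≤ (r - 1 / 4) ^ 4 := by positivity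
    by_cases hk0 : k = 0
    · have hyr : y = r := by rw [hy, hk0]; push_cast; ring
      have hy0 : 0 < y := by rw [hyr]; linarith [hc1'.1]
      refine ⟨fun _ => ?_, fun h => by linarith⟩
      refine (low_le_pow _).trans ?_
      rw [hP, hyr]
      have hs : (r - 1 / 4) ^ 4 ≤ 1 := by
        have : |r - 1 / 4| ^ 4 ≤ 1 := pow_le_one₀ (abs_nonneg _) (by linarith)
        rwa [show (r - 1 / 4) ^ 4 = |r - 1 / 4| ^ 4 by
          rw [← abs_pow, abs_of_nonneg hB0]]
      nlinarith [sq_nonneg r, mul_nonneg b0 (sub_nonneg.mpr hB), mul_nonneg (sub_nonneg.mpr b1) (sub_nonneg.mpr hs), mul_nonneg (sub_nonneg.mpr b1) (sq_nonneg r)]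
    · -- `k ≠ 0`
      have hPsi : (y ^ 2 - r ^ 2) / 2 ≤ Psi y := by
        rw [hP]
        nlinarith [mul_nonneg b0 (hB0.trans hB), mul_nonneg (sub_nonneg.mpr b1) (sq_nonneg r)]
      have hkk : (1:ℝ) ≤ k ∨ (k:ℝ) ≤ -1 := by
        rcases lt_or_gt_of_ne hk0 with h | h
        · right; exact_mod_cast Int.le_sub_one_of_lt h
        · left; exact_mod_cast h
      have hyy : y ^ 2 / 5 ≤ (y ^ 2 - r ^ 2) / 2 ∧ (1 / 2 ≤ y ∨ y ≤ -1 / 2) := by
        rcases hkk with h | h
        · have : 9 / 8 ≤ y := by rw [hy]; linarith [hc1'.1]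
          refine ⟨by nlinarith [hc1'.1, hc1'.2], Or.inl (by linarith)⟩
        · have : y ≤ -5 / 8 := by rw [hy]; linarith [hc1'.2]
          refine ⟨by nlinarith [hc1'.1, hc1'.2], Or.inr (by linarith)⟩
      refine ⟨fun h => ?_, fun h => ?_⟩
      · rcases hyy.2 with h' | h'
        · exact ((l3 h h').trans hyy.1).trans hPsi
        · linarith
      · rcases hyy.2 with h' | h'
        · linarith
        · exact ((l4 h h').trans hyy.1).trans hPsi
  · have hb1 : bump (1 / 4) r = 0 := bump_zero (not_lt.mp hc1)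
    by_cases hc2 : |r + 1 / 4| < 1 / 8
    · have hc2' := abs_lt.mp hc2
      rw [hb1] at hP
      have b0 := bump_nonneg (-1 / 4) r
      have b1 := bump_le_one (-1 / 4) r
      set χ := bump (-1 / 4) r with hχ
      have hB0 : 0 ≤ (r + 1 / 4) ^ 4 := by positivity
      by_cases hk0 : k = 0
      · have hyr : y = r := by rw [hy, hk0]; push_cast; ring
        have hy0 : y < 0 := by rw [hyr]; linarith [hc2'.2]
        refine ⟨fun h => by linarith, fun _ => ?_⟩
        refine (low_le_pow _).trans ?_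
        rw [hP, hyr]
        have hs : (r + 1 / 4) ^ 4 ≤ 1 := by
          have : |r + 1 / 4| ^ 4 ≤ 1 := pow_le_one₀ (abs_nonneg _) (by linarith)
          rwa [show (r + 1 / 4) ^ 4 = |r + 1 / 4| ^ 4 by
            rw [← abs_pow, abs_of_nonneg hB0]]
        nlinarith [sq_nonneg r, mul_nonneg (sub_nonneg.mpr b1) (sub_nonneg.mpr hs), mul_nonneg (sub_nonneg.mpr b1) (sq_nonneg r)]
      · have hPsi : (y ^ 2 - r ^ 2) / 2 ≤ Psi y := by
          rw [hP]
          nlinarith [mul_nonneg b0 hB0, mul_nonneg (sub_nonneg.mpr b1) (sq_nonneg r)]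
        have hkk : (1:ℝ) ≤ k ∨ (k:ℝ) ≤ -1 := by
          rcases lt_or_gt_of_ne hk0 with h | h
          · right; exact_mod_cast Int.le_sub_one_of_lt h
          · left; exact_mod_cast h
        have hyy : y ^ 2 / 5 ≤ (y ^ 2 - r ^ 2) / 2 ∧ (1 / 2 ≤ y ∨ y ≤ -1 / 2) := by
          rcases hkk with h | h
          · have : 5 / 8 ≤ y := by rw [hy]; linarith [hc2'.1]
            refine ⟨by nlinarith [hc2'.1, hc2'.2], Or.inl (by linarith)⟩
          · have : y ≤ -9 / 8 := by rw [hy]; linarith [hc2'.2]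
            refine ⟨by nlinarith [hc2'.1, hc2'.2], Or.inr (by linarith)⟩
        refine ⟨fun h => ?_, fun h => ?_⟩
        · rcases hyy.2 with h' | h'
          · exact ((l3 h h').trans hyy.1).trans hPsi
          · linarith
        · rcases hyy.2 with h' | h'
          · linarith
          · exact ((l4 h h').trans hyy.1).trans hPsi
    · have hb2 : bump (-1 / 4) r = 0 := by
        apply bump_zero
        rw [show r - -1 / 4 = r + 1 / 4 by ring]
        exact not_lt.mp hc2
      rw [hb1, hb2] at hP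
      refine ⟨fun _ => ?_, fun _ => ?_⟩
      · rw [hP]
        have := sq_nonneg y
        simp only [zero_mul, sub_zero]
        linarith
      · rw [hP]
        have := sq_nonneg y
        simp only [zero_mul, sub_zero]
        linarith

end Pool.Agent.R218.Adj
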