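import Mathlib

/-!
# A `C²` function `s⁴ θ(s)` with slowly oscillating `θ`
-/

namespace Pool.Agent.R218.Adj

open MeasureTheory Set Filter Topology

/-- the phase `log (1 + log² s)` -/
noncomputable def ph (s : ℝ) : ℝ := Real.log (1 + Real.log s ^ 2)

/-- the slowly oscillating factor, with values in `[1,16]` -/
noncomputable def th (s : ℝ) : ℝ := 17 / 2 + 15 / 2 * Real.sin (ph s)

/-- `s θ'(s)` -/
noncomputable def th1 (s : ℝ) : ℝ :=
  15 / 2 * (Real.cos (ph s) * (2 * Real.log s / (1 + Real.log s ^ 2)))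

/-- `s θ₁'(s)` -/
noncomputable def th2 (s : ℝ) : ℝ :=
  15 / 2 * (-Real.sin (ph s) * (2 * Real.log s / (1 + Real.log s ^ 2)) ^ 2 +
    Real.cos (ph s) * ((2 - 2 * Real.log s ^ 2) / (1 + Real.log s ^ 2) ^ 2))

lemma th_ge (s : ℝ) : 1 ≤ th s := by
  have := Real.neg_one_le_sin (ph s)
  unfold th
  linarith

lemma th_le (s : ℝ) : th s ≤ 16 := by
  have := Real.sin_le_one (ph s)
  unfold th
  linarith

lemma abs_ratio_le (L : ℝ) : |2 * L / (1 + L ^ 2)| ≤ 1 := by
  have h : 0 < 1 + L ^ 2 := by positivity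
  rw [abs_div, abs_of_pos h, div_le_one h, abs_le]
  constructor
  · nlinarith [sq_nonneg (L + 1)]
  · nlinarith [sq_nonneg (L - 1)]

lemma abs_ratio2_le (L : ℝ) : |(2 - 2 * L ^ 2) / (1 + L ^ 2) ^ 2| ≤ 2 := by
  have h : 0 < (1 + L ^ 2) ^ 2 := by positivity
  rw [abs_div, abs_of_pos h, div_le_iff₀ h, abs_le]
  constructor
  · nlinarith [sq_nonneg (L ^ 2), sq_nonneg L]
  · nlinarith [sq_nonneg (L ^ 2), sq_nonneg L]

lemma abs_th_le (s : ℝ) : |th s| ≤ 16 := by
  rw [abs_of_nonneg (le_trans zero_le_one (th_ge s))]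
  exact th_le s

lemma abs_th1_le (s : ℝ) : |th1 s| ≤ 15 / 2 := by
  unfold th1
  rw [abs_mul, abs_mul, abs_of_pos (by norm_num : (0:ℝ) < 15 / 2)]
  have h1 := abs_ratio_le (Real.log s)
  have h2 := Real.abs_cos_le_one (ph s)
  have := mul_le_one₀ h2 (abs_nonneg _) h1
  linarith

lemma abs_th2_le (s : ℝ) : |th2 s| ≤ 45 / 2 := by
  unfold th2
  rw [abs_mul, abs_of_pos (by norm_num : (0:ℝ) < 15 / 2)]
  have h1 := abs_ratio_le (Real.log s)
  have h3 := abs_ratio2_le (Real.log s)
  have h2 := Real.abs_cos_le_one (ph s)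
  have h4 := Real.abs_sin_le_one (ph s)
  have h5 : |-Real.sin (ph s) * (2 * Real.log s / (1 + Real.log s ^ 2)) ^ 2 +
    Real.cos (ph s) * ((2 - 2 * Real.log s ^ 2) / (1 + Real.log s ^ 2) ^ 2)| ≤ 3 := by
    refine (abs_add_le _ _).trans ?_
    rw [abs_mul, abs_mul, abs_neg, abs_pow]
    have h6 : |Real.sin (ph s)| * |2 * Real.log s / (1 + Real.log s ^ 2)| ^ 2 ≤ 1 :=
      mul_le_one₀ h4 (by positivity) (pow_le_one₀ (abs_nonneg _) h1)
    have h7 : |Real.cos (ph s)| * |(2 - 2 * Real.log s ^ 2) / (1 + Real.log s ^ 2) ^ 2| ≤ 1 * 2 :=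
      mul_le_mul h2 h3 (abs_nonneg _) zero_le_one
    linarith
  linarith

lemma hasDerivAt_ph {s : ℝ} (hs : s ≠ 0) :
    HasDerivAt ph ((2 * Real.log s / (1 + Real.log s ^ 2)) / s) s := by
  have h1 := (((Real.hasDerivAt_log hs).pow 2).const_add 1).log
    (by have := sq_nonneg (Real.log s); positivity : (1 + (fun x => Real.log x ^ 2) s) ≠ 0)
  refine h1.congr_deriv ?_
  have : 1 + Real.log s ^ 2 ≠ 0 := by positivity
  simp only [Nat.cast_ofNat, Pi.pow_apply]
  field_simp
  simp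

lemma hasDerivAt_th {s : ℝ} (hs : s ≠ 0) : HasDerivAt th (th1 s / s) s := by
  have h1 := ((hasDerivAt_ph hs).sin.const_mul (15 / 2)).const_add (17 / 2)
  refine h1.congr_deriv ?_
  unfold th1
  ring

lemma hasDerivAt_th1 {s : ℝ} (hs : s ≠ 0) : HasDerivAt th1 (th2 s / s) s := by
  have hne : 1 + Real.log s ^ 2 ≠ 0 := by positivity
  have h1 := ((Real.hasDerivAt_log hs).const_mul 2).div
    (((Real.hasDerivAt_log hs).pow 2).const_add 1) hne
  have h2 := ((hasDerivAt_ph hs).cos.mul h1).const_mul (15 / 2)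
  refine h2.congr_deriv ?_
  unfold th2
  simp only [Nat.cast_ofNat, Pi.div_apply, Pi.pow_apply]
  norm_num
  field_simp
  ring

/-- `B(s) = s⁴ θ(s)` -/
noncomputable def B (s : ℝ) : ℝ := s ^ 4 * th s

noncomputable def B1 (s : ℝ) : ℝ := s ^ 3 * (4 * th s + th1 s)

noncomputable def B2 (s : ℝ) : ℝ := s ^ 2 * (12 * th s + 7 * th1 s + th2 s)

lemma flat {f : ℝ → ℝ} {C : ℝ} (h0 : f 0 = 0) (h : ∀ s, |s| ≤ 1 → |f s| ≤ C * s ^ 2) :
    HasDerivAt f 0 0 := by
  rw [hasDerivAt_iff_isLittleO_nhds_zero]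
  simp only [zero_add, h0, sub_zero, smul_zero]
  have h1 : f =O[𝓝 0] fun s : ℝ => s ^ 2 := by
    apply Asymptotics.IsBigO.of_bound C
    have : Metric.closedBall (0:ℝ) 1 ∈ 𝓝 (0:ℝ) := Metric.closedBall_mem_nhds 0 one_pos
    filter_upwards [this] with s hs
    rw [mem_closedBall_zero_iff, Real.norm_eq_abs] at hs
    rw [Real.norm_eq_abs, Real.norm_eq_abs, abs_of_nonneg (sq_nonneg s)]
    exact h s hs
  have h2 : (fun s : ℝ => s ^ 2) =o[𝓝 0] fun s : ℝ => s := by
    have := Asymptotics.isLittleO_pow_pow (𝕜 := ℝ) (m := 1) (n := 2) (by norm_num)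
    simpa using this
  exact h1.trans_isLittleO h2

lemma abs_pow_le {s : ℝ} (hs : |s| ≤ 1) {n : ℕ} (hn : 2 ≤ n) : |s ^ n| ≤ s ^ 2 := by
  rw [abs_pow, ← sq_abs s]
  exact pow_le_pow_of_le_one (abs_nonneg s) hs hn

lemma hasDerivAt_B (s : ℝ) : HasDerivAt B (B1 s) s := by
  by_cases hs : s = 0
  · subst hs
    have : B1 0 = 0 := by simp [B1]
    rw [this]
    apply flat (C := 16) (by simp [B])
    intro s hs
    unfold B
    rw [abs_mul]
    calc |s ^ 4| * |th s| ≤ s ^ 2 * 16 :=
          mul_le_mul (abs_pow_le hs (by norm_num)) (abs_th_le s) (abs_nonneg _) (sq_nonneg _)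
      _ = 16 * s ^ 2 := by ring
  · have h := (hasDerivAt_pow 4 s).mul (hasDerivAt_th hs)
    refine h.congr_deriv ?_
    unfold B1
    push_cast
    field_simp

lemma hasDerivAt_B1 (s : ℝ) : HasDerivAt B1 (B2 s) s := by
  by_cases hs : s = 0
  · subst hs
    have : B2 0 = 0 := by simp [B2]
    rw [this]
    apply flat (C := 72) (by simp [B1])
    intro s hs
    unfold B1
    rw [abs_mul]
    have h1 : |4 * th s + th1 s| ≤ 72 := by
      have h2 := abs_th_le s
      have h3 := abs_th1_le s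
      rw [abs_le] at h2 h3 ⊢
      constructor <;> linarith [h2.1, h2.2, h3.1, h3.2]
    calc |s ^ 3| * |4 * th s + th1 s| ≤ s ^ 2 * 72 :=
          mul_le_mul (abs_pow_le hs (by norm_num)) h1 (abs_nonneg _) (sq_nonneg _)
      _ = 72 * s ^ 2 := by ring
  · have h := (hasDerivAt_pow 3 s).mul (((hasDerivAt_th hs).const_mul 4).add (hasDerivAt_th1 hs))
    refine h.congr_deriv ?_
    unfold B2
    push_cast
    simp only [Pi.add_apply]
    field_simp
    ring

lemma continuousAt_log' {s : ℝ} (hs : s ≠ 0) : ContinuousAt Real.log s :=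
  Real.continuousAt_log hs

lemma continuous_B2 : Continuous B2 := by
  rw [continuous_iff_continuousAt]
  intro s
  by_cases hs : s = 0
  · subst hs
    have h0 : B2 0 = 0 := by simp [B2]
    rw [ContinuousAt, h0]
    have hb : ∀ s, |B2 s| ≤ 270 * s ^ 2 := by
      intro s
      unfold B2
      rw [abs_mul, abs_of_nonneg (sq_nonneg s), mul_comm]
      apply mul_le_mul_of_nonneg_right _ (sq_nonneg s)
      have h2 := abs_th_le s
      have h3 := abs_th1_le s
      have h4 := abs_th2_le s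
      rw [abs_le] at h2 h3 h4 ⊢
      constructor <;> linarith [h2.1, h2.2, h3.1, h3.2, h4.1, h4.2]
    apply squeeze_zero_norm hb
    have : Tendsto (fun s : ℝ => 270 * s ^ 2) (𝓝 0) (𝓝 (270 * 0 ^ 2)) :=
      (Continuous.tendsto (by fun_prop) 0)
    simpa using this
  · have hl := Real.continuousAt_log hs
    have hne : ∀ L : ℝ, 1 + L ^ 2 ≠ 0 := fun L => by positivity
    have hph : ContinuousAt ph s := (hasDerivAt_ph hs).continuousAt
    unfold B2 th th1 th2
    have h1 : ContinuousAt (fun s => 2 * Real.log s / (1 + Real.log s ^ 2)) s :=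
      (hl.const_mul 2).div ((hl.pow 2).const_add 1) (hne _)
    have h2 : ContinuousAt (fun s => (2 - 2 * Real.log s ^ 2) / (1 + Real.log s ^ 2) ^ 2) s :=
      ((hl.pow 2).const_mul 2).const_sub 2 |>.div (((hl.pow 2).const_add 1).pow 2)
        (pow_ne_zero 2 (hne _))
    have h3 : ContinuousAt (fun s => Real.sin (ph s)) s :=
      Real.continuous_sin.continuousAt.comp hph
    have h4 : ContinuousAt (fun s => Real.cos (ph s)) s :=
      Real.continuous_cos.continuousAt.comp hph
    fun_prop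

lemma contDiff_two_of {f f1 f2 : ℝ → ℝ} (h1 : ∀ s, HasDerivAt f (f1 s) s)
    (h2 : ∀ s, HasDerivAt f1 (f2 s) s) (h3 : Continuous f2) : ContDiff ℝ 2 f := by
  have e1 : deriv f = f1 := funext fun s => (h1 s).deriv
  have e2 : deriv f1 = f2 := funext fun s => (h2 s).deriv
  rw [show (2 : WithTop ℕ∞) = 1 + 1 by norm_num, contDiff_succ_iff_deriv]
  refine ⟨fun s => (h1 s).differentiableAt, by simp, ?_⟩
  rw [e1, show (1 : WithTop ℕ∞) = 0 + 1 by norm_num, contDiff_succ_iff_deriv]
  refine ⟨fun s => (h2 s).differentiableAt, by simp, ?_⟩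
  rw [e2, contDiff_zero]
  exact h3

lemma contDiff_B : ContDiff ℝ 2 B := contDiff_two_of hasDerivAt_B hasDerivAt_B1 continuous_B2

lemma B_ge (s : ℝ) : s ^ 4 ≤ B s := by
  unfold B
  have h1 := th_ge s
  have h2 : 0 ≤ s ^ 4 := by positivity
  nlinarith

/-- slow variation: if `r_k → 0+` and `sin (ph r_k) → ℓ`-value constant then `θ(r_k x)` has the
same limit -/
lemma slow {r : ℕ → ℝ} (hr : ∀ k, 0 < r k) (hr0 : Tendsto r atTop (𝓝 0)) {v : ℝ}
    (hv : ∀ k, Real.sin (ph (r k)) = v) {x : ℝ} (hx : x ≠ 0) :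
    Tendsto (fun k => th (r k * x)) atTop (𝓝 (17 / 2 + 15 / 2 * v)) := by
  have hL : Tendsto (fun k => Real.log (r k)) atTop atBot := by
    apply Real.tendsto_log_nhdsGT_zero.comp
    rw [tendsto_nhdsWithin_iff]
    exact ⟨hr0, Eventually.of_forall hr⟩
  have hlog : ∀ k, Real.log (r k * x) = Real.log (r k) + Real.log x := fun k =>
    Real.log_mul (hr k).ne' hx
  -- the difference of phases tends to zero
  have hdiff : Tendsto (fun k => ph (r k * x) - ph (r k)) atTop (𝓝 0) := by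
    have e1 : ∀ k, ph (r k * x) - ph (r k) = Real.log ((1 + (Real.log (r k) + Real.log x) ^ 2) /
        (1 + Real.log (r k) ^ 2)) := by
      intro k
      unfold ph
      rw [hlog k, Real.log_div (by positivity) (by positivity)]
    have h1 : Tendsto (fun L : ℝ => (1 + (L + Real.log x) ^ 2) / (1 + L ^ 2)) atBot (𝓝 1) := by
      have e2 : ∀ L : ℝ, (1 + (L + Real.log x) ^ 2) / (1 + L ^ 2) =
          1 + (2 * Real.log x) * (L / (1 + L ^ 2)) + (Real.log x) ^ 2 * (1 / (1 + L ^ 2)) := by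
        intro L
        have : 1 + L ^ 2 ≠ 0 := by positivity
        field_simp
        ring
      have h2 : Tendsto (fun L : ℝ => 1 / (1 + L ^ 2)) atBot (𝓝 0) := by
        have : Tendsto (fun L : ℝ => 1 + L ^ 2) atBot atTop := by
          apply tendsto_atTop_add_const_left
          have h5 := (tendsto_pow_atTop (α := ℝ) two_ne_zero).comp tendsto_abs_atBot_atTop
          exact h5.congr (fun L => sq_abs L)
        have h6 := this.inv_tendsto_atTop
        refine h6.congr (fun L => ?_)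
        simp [one_div]
      have h3 : Tendsto (fun L : ℝ => L / (1 + L ^ 2)) atBot (𝓝 0) := by
        have h4 : Tendsto (fun L : ℝ => |L|⁻¹) atBot (𝓝 0) :=
          tendsto_inv_atTop_zero.comp tendsto_abs_atBot_atTop
        apply squeeze_zero_norm' _ h4
        filter_upwards [eventually_lt_atBot 0] with L hL
        rw [Real.norm_eq_abs, abs_div, abs_of_pos (by positivity : 0 < 1 + L ^ 2)]
        rw [div_le_iff₀ (by positivity), inv_mul_eq_div, le_div_iff₀ (abs_pos.mpr hL.ne)]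
        have := abs_mul_abs_self L
        nlinarith
      have h5 := (h3.const_mul (2 * Real.log x)).const_add 1 |>.add (h2.const_mul (Real.log x ^ 2))
      simp only [mul_zero, add_zero] at h5
      exact h5.congr (fun L => (e2 L).symm)
    have h2 : Tendsto (fun k => Real.log ((1 + (Real.log (r k) + Real.log x) ^ 2) /
        (1 + Real.log (r k) ^ 2))) atTop (𝓝 (Real.log 1)) :=
      (Real.continuousAt_log one_ne_zero).tendsto.comp (h1.comp hL)
    rw [Real.log_one] at h2
    exact h2.congr (fun k => (e1 k).symm)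
  have hs : Tendsto (fun k => Real.sin (ph (r k * x))) atTop (𝓝 v) := by
    rw [tendsto_iff_norm_sub_tendsto_zero]
    have h3 : Tendsto (fun k => |ph (r k * x) - ph (r k)|) atTop (𝓝 0) := by
      simpa using hdiff.abs
    apply squeeze_zero (fun k => norm_nonneg _) _ h3
    intro k
    rw [← hv k, Real.norm_eq_abs]
    exact Real.abs_sin_sub_sin_le _ _
  exact (hs.const_mul (15 / 2)).const_add (17 / 2)

end Pool.Agent.R218.Adj
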